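import Pool.Agent.Helper29.Prefix.AAE.Chain

/-!
# The prefix `∀∀∃`: the codes of a model
-/

set_option autoImplicit false

namespace Pool.Agent.Helper29.Prefix

variable {Γ α : Type} {R : Rel Γ α}

/-- The numbers of the model are `e 0, …, e m`. -/
structure Full (R : Rel Γ α) (e : ℕ → α) (m : ℕ) : Prop where
  b : Base R e m
  x1 : X1 R e m
  x2 : X2 R e m
  l : R.l (e m)

/-- `d` is the code of `(a, b)`. -/
def Cd (R : Rel Γ α) (e : ℕ → α) (a b : ℕ) (d : α) : Prop := R.p1 (e a) d ∧ R.p2 (e b) d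

namespace Model

variable (M : Model R) {e : ℕ → α} {m : ℕ} (F : Full R e m)

include M F

lemma num_iff (x : α) : R.num x ↔ ∃ i ≤ m, x = e i := by
  constructor
  · intro h
    by_cases h1 : x = e m
    · exact ⟨m, le_rfl, h1⟩
    · obtain ⟨i, hi, h2⟩ := (F.b.lt m le_rfl x).1 (M.llt F.l h h1)
      exact ⟨i, hi.le, h2⟩
  · rintro ⟨i, hi, rfl⟩
    exact F.b.num i hi

lemma p1_iff {x d : α} (h : R.p1 x d) : ∃ a, 1 ≤ a ∧ a < m ∧ x = e a := by
  obtain ⟨h1, -, h2, h3, -⟩ := M.p1n h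
  obtain ⟨a, ha, rfl⟩ := (M.num_iff F x).1 h1
  refine ⟨a, ?_, ?_, rfl⟩
  · rcases Nat.eq_zero_or_pos a with h4 | h4
    · rw [h4] at h2
      exact absurd F.b.z0 h2
    · exact h4
  · rcases Nat.lt_or_eq_of_le ha with h4 | h4
    · exact h4
    · rw [h4] at h3
      exact absurd F.l h3

lemma no_sc (t : α) : ¬ R.sc (e m) t := by
  intro h
  have h1 := M.sclt h
  by_cases h2 : t = e m
  · rw [h2] at h1
    exact M.irr _ h1
  · exact M.asym h1 (M.llt F.l (M.ltn h1).2 h2)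

lemma lt_of_cd {a b : ℕ} (ha : a ≤ m) (hb : b ≤ m) {d : α} (h1 : R.p1 (e a) d)
    (h2 : R.p2 (e b) d) : b < a := by
  have key : ∀ n b, m - b = n → b ≤ m → ∀ d, R.p1 (e a) d → R.p2 (e b) d → b < a := by
    intro n
    induction n using Nat.strong_induction_on with
    | _ n ih =>
      intro b hn hb d h1 h2
      by_contra hba
      have hne : b ≠ a := by
        rintro rfl
        exact (M.p1n h1).2.2.2.2.1 h2
      by_cases hE : R.en d
      · obtain ⟨t, h3, h4⟩ := M.dp1e h1 hE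
        rw [F.x2 b hb d h2 t h3] at h4
        obtain ⟨i', h5, h6⟩ := (F.b.lt a ha (e b)).1 (M.sclt h4)
        have := M.inj F.b hb (by omega) h6
        omega
      by_cases hF : R.fn d
      · obtain ⟨z, h3, h4, h5⟩ := M.dp1f h1 hE hF
        obtain ⟨t, h6, h7⟩ := M.dv h3
        obtain ⟨t', h8, h9⟩ := M.dn2 h7
        rw [F.x2 b hb d h2 t' h8] at h9
        have hbm : b ≠ m := by
          rintro rfl
          exact M.no_sc F _ h9
        rw [F.b.succ b (by omega)] at h9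
        rw [h9] at h6
        have := ih (m - (b + 1)) (by omega) (b + 1) rfl (by omega) z h4 h6
        omega
      · obtain ⟨z, h3, h4⟩ := M.dp1w h1 hE hF
        obtain ⟨t, h5, -, -, h6⟩ := M.dg1 (M.wg h3)
        obtain ⟨t', h7, h8⟩ := M.dn3 (h6 h3)
        obtain ⟨t'', h9, h10⟩ := M.dn2 h7
        rw [F.x2 b hb d h2 t'' h9] at h10
        have hbm : b ≠ m := by
          rintro rfl
          exact M.no_sc F _ h10
        rw [F.b.succ b (by omega)] at h10
        rw [h10] at h8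
        have hbm' : b + 1 ≠ m := by
          intro h
          rw [h] at h8
          exact M.no_sc F _ h8
        rw [F.b.succ (b + 1) (by omega)] at h8
        rw [h8] at h5
        have := ih (m - (b + 1 + 1)) (by omega) (b + 1 + 1) rfl (by omega) z h4 h5
        omega
  exact key (m - b) b rfl hb d h1 h2

/-- every code is the code of a pair -/
lemma exists_cd {d : α} (hd : ¬ R.num d) : ∃ a b, b < a ∧ a < m ∧ Cd R e a b d := by
  have h1 : ∃ u, R.p1 u d := by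
    by_cases hE : R.en d
    · exact M.den hE
    · obtain ⟨z, hz⟩ := M.dh hd hE
      obtain ⟨u, -, h2⟩ := M.dhh hz
      obtain ⟨z', h3, -⟩ := M.dr1' h2 hE
      exact ⟨z', h3⟩
  obtain ⟨u, hu⟩ := h1
  have h2 : ∃ u, R.p2 u d := by
    by_cases hE : R.en d
    · obtain ⟨z, hz, -⟩ := M.dp1e hu hE
      exact ⟨z, hz⟩
    · obtain ⟨z, hz⟩ := M.dh hd hE
      obtain ⟨u, h3, h4⟩ := M.dhh' hz
      exact ⟨u, by first | exact h3 | exact h4⟩
  obtain ⟨v, hv⟩ := h2
  obtain ⟨a, ha, ha', rfl⟩ := M.p1_iff F hu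
  obtain ⟨b, hb, rfl⟩ := (M.num_iff F v).1 (M.p2n hv).1
  exact ⟨a, b, M.lt_of_cd F ha'.le hb hu hv, ha', hu, hv⟩

lemma cd_unique {a b a' b' : ℕ} (hb : b < a) (ha : a ≤ m) (ha' : a' ≤ m) (hb' : b' ≤ m) {d : α}
    (h : Cd R e a b d) (h' : Cd R e a' b' d) : a = a' ∧ b = b' :=
  ⟨(M.inj F.b ha' ha (F.x1 a ha b hb d h.1 h.2 _ h'.1)).symm,
    (M.inj F.b hb' (by omega) (F.x2 b (by omega) d h.2 _ h'.2)).symm⟩

lemma en_iff {a b : ℕ} (hb : b < a) (ha : a < m) {d : α} (h : Cd R e a b d) :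
    R.en d ↔ b + 1 = a := by
  constructor
  · intro hE
    obtain ⟨t, h1, h2⟩ := M.dp1e h.1 hE
    rw [F.x2 b (by omega) d h.2 t h1, F.b.succ b (by omega)] at h2
    exact M.inj F.b (by omega) (by omega) h2.symm
  · intro hab
    by_contra hE
    by_cases hF : R.fn d
    · obtain ⟨z, h3, h4, h5⟩ := M.dp1f h.1 hE hF
      have h6 := M.vstep F.b F.x2 (by omega) (by omega) h.2 h3
      have := M.lt_of_cd F ha.le (by omega) h4 h6
      omega
    · obtain ⟨z, h3, h4⟩ := M.dp1w h.1 hE hF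
      obtain ⟨t, h5, -, -, h6⟩ := M.dg1 (M.wg h3)
      obtain ⟨t', h7, h8⟩ := M.dn3 (h6 h3)
      obtain ⟨t'', h9, h10⟩ := M.dn2 h7
      rw [F.x2 b (by omega) d h.2 t'' h9, F.b.succ b (by omega)] at h10
      rw [h10, F.b.succ (b + 1) (by omega)] at h8
      rw [h8] at h5
      have := M.lt_of_cd F ha.le (by omega) h4 h5
      omega

/-- the code of `(a, b)` in the run of `e m` -/
lemma exists_code {a : ℕ} (ha1 : 1 ≤ a) (ha : a < m) : ∀ b, b < a → ∃ d, Cd R e a b d ∧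
    R.g3 (e m) d := by
  have hz : ¬ R.z (e a) := by
    intro h
    have := M.inj F.b ha.le (Nat.zero_le _) (M.zz h F.b.z0)
    omega
  intro b
  induction b with
  | zero =>
    intro _
    obtain ⟨s, h1, h2, h3⟩ := M.dtl ((F.b.lt m le_rfl (e a)).2 ⟨a, ha, rfl⟩) hz
    exact ⟨s, ⟨h1, (M.zc1 F.b.z0).1 h2⟩, h3⟩
  | succ b ih =>
    intro hb
    obtain ⟨d, h1, h2⟩ := ih (by omega)
    have hE : ¬ R.en d := by
      rw [M.en_iff F (by omega) ha h1]
      omega
    obtain ⟨z, h3, h4⟩ := M.dg3 h2 hE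
    obtain ⟨u, h5, h6⟩ := M.dv' h3
    rw [F.x1 a ha.le b (by omega) d h1.1 h1.2 u h6] at h5
    exact ⟨z, ⟨h5, M.vstep F.b F.x2 (by omega) (by omega) h1.2 h3⟩, h4⟩

lemma rel_absurd {a b : ℕ} (hb : b < a) (ha : a < m) {d d' : α} (h : Cd R e a b d)
    (h' : Cd R e a b d') : ¬ (R.v d d' ∨ R.g1 d d' ∨ R.g2 d d' ∨ R.h d d') := by
  rintro (h1 | h1 | h1 | h1)
  · have h2 := M.vstep F.b F.x2 (by omega) (by omega) h.2 h1
    have := M.inj F.b (by omega) (by omega) (F.x2 b (by omega) d' h'.2 _ h2)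
    omega
  · obtain ⟨t, h2, h3, -⟩ := M.dg1 h1
    rw [F.x2 b (by omega) d' h'.2 t h2] at h3
    exact (M.p2n h.2).2.2 h3
  · obtain ⟨t, h2, h3, -⟩ := M.dg2 h1
    rw [F.x2 b (by omega) d' h'.2 t h2] at h3
    exact (M.p2n h.2).2.1 h3
  · obtain ⟨t, h2, h3⟩ := M.dhh h1
    rw [F.x1 a ha.le b hb d h.1 h.2 t h2] at h3
    obtain ⟨z', h4, h5⟩ := M.dr1' h3 (M.hne h1)
    rw [F.x1 a ha.le b hb d' h'.1 h'.2 z' h4] at h5
    exact M.irr _ (M.sclt h5)

lemma code_unique {a b : ℕ} (hb : b < a) (ha : a < m) {d d' : α} (h : Cd R e a b d)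
    (h' : Cd R e a b d') : d = d' := by
  by_contra hne
  have h1 := M.rel_absurd F hb ha h h'
  have h2 := M.rel_absurd F hb ha h' h
  obtain ⟨z, h3⟩ := M.dsep (M.p1n h.1).2.1 (M.p1n h'.1).2.1 hne (by tauto)
  rcases h3 with ⟨h3, h4⟩ | ⟨h3, h4⟩
  · rw [F.x1 a ha.le b hb d h.1 h.2 z h3] at h4
    exact h4 h'.1
  · rw [F.x2 b (by omega) d h.2 z h3] at h4
    exact h4 h'.2

/-- vertical neighbours -/
lemma v_of {a b : ℕ} (hb : b + 1 < a) (ha : a < m) {d d' : α} (h : Cd R e a b d)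
    (h' : Cd R e a (b + 1) d') : R.v d d' := by
  obtain ⟨d₁, h1, h2⟩ := M.exists_code F (by omega) ha b (by omega)
  rw [M.code_unique F (by omega) ha h1 h] at h2
  have hE : ¬ R.en d := by
    rw [M.en_iff F (by omega) ha h]
    omega
  obtain ⟨z, h3, h4⟩ := M.dg3 h2 hE
  obtain ⟨u, h5, h6⟩ := M.dv' h3
  rw [F.x1 a ha.le b (by omega) d h.1 h.2 u h6] at h5
  have h7 : Cd R e a (b + 1) z := ⟨h5, M.vstep F.b F.x2 (by omega) (by omega) h.2 h3⟩
  rwa [M.code_unique F hb ha h7 h'] at h3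

/-- horizontal neighbours -/
lemma h_of {a b : ℕ} (hb : b < a) (ha : a + 1 < m) {d d' : α} (h : Cd R e a b d)
    (h' : Cd R e (a + 1) b d') : R.h d d' := by
  have hE : ¬ R.en d' := by
    rw [M.en_iff F (by omega) ha h']
    omega
  obtain ⟨z, hz⟩ := M.dh (M.p1n h'.1).2.1 hE
  obtain ⟨u, h1, h2⟩ := M.dhh hz
  obtain ⟨z', h3, h4⟩ := M.dr1' h2 hE
  rw [F.x1 (a + 1) (by omega) b (by omega) d' h'.1 h'.2 z' h3] at h4
  rw [M.pred F.b (by omega) h4] at h1
  obtain ⟨u', h5, h6⟩ := M.dhh' hz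
  have h7 : Cd R e a b z := by
    refine ⟨h1, ?_⟩
    first
      | (rw [F.x2 b (by omega) d' h'.2 u' h5] at h6; exact h6)
      | (rw [F.x2 b (by omega) d' h'.2 u' h6] at h5; exact h5)
  rwa [M.code_unique F hb (by omega) h7 h] at hz

lemma zc_of {a : ℕ} {d : α} (h : Cd R e a 0 d) : R.zc d := (M.zc1 F.b.z0).2 h.2

lemma top_of {a b : ℕ} (ha : a + 1 = m) {d : α} (h : Cd R e a b d) : R.top d := by
  rw [M.ptop h.1, ← M.scl ((F.b.succ a (by omega) _).2 rfl), ha]
  exact F.l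

/-- the number of elements -/
lemma card_eq [Fintype α] : 2 * Fintype.card α = m * (m + 1) + 2 := by
  classical
  have hcode : ∀ p : Σ _ : ℕ, ℕ, ∃ d, p.2 < p.1 → p.1 < m → Cd R e p.1 p.2 d := by
    rintro ⟨a, b⟩
    by_cases hb : b < a
    · by_cases ha : a < m
      · obtain ⟨d, hd, -⟩ := M.exists_code F (by omega) ha b hb
        exact ⟨d, fun _ _ => hd⟩
      · exact ⟨e 0, fun _ h => absurd h ha⟩
    · exact ⟨e 0, fun h => absurd h hb⟩
  choose code hcode using hcode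
  have h1 : (Finset.univ.filter (fun x => R.num x)) = (Finset.range (m + 1)).image e := by
    ext x
    simp only [Finset.mem_filter, Finset.mem_univ, true_and, Finset.mem_image, Finset.mem_range]
    rw [M.num_iff F x]
    constructor
    · rintro ⟨i, hi, rfl⟩
      exact ⟨i, by omega, rfl⟩
    · rintro ⟨i, hi, rfl⟩
      exact ⟨i, by omega, rfl⟩
  have h2 : (Finset.univ.filter (fun x => ¬ R.num x)) =
      ((Finset.range m).sigma (fun a => Finset.range a)).image code := by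
    ext x
    simp only [Finset.mem_filter, Finset.mem_univ, true_and, Finset.mem_image,
      Finset.mem_sigma, Finset.mem_range]
    constructor
    · intro hx
      obtain ⟨a, b, hb, ha, hc⟩ := M.exists_cd F hx
      exact ⟨⟨a, b⟩, ⟨ha, hb⟩, M.code_unique F hb ha (hcode ⟨a, b⟩ hb ha) hc⟩
    · rintro ⟨p, ⟨hp1, hp2⟩, rfl⟩
      exact (M.p1n (hcode p hp2 hp1).1).2.1
  have h3 : (Finset.univ.filter (fun x => R.num x)).card = m + 1 := by
    rw [h1, Finset.card_image_of_injOn, Finset.card_range]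
    intro i hi i' hi' h
    exact M.inj F.b (by simpa [Nat.lt_succ_iff] using hi) (by simpa [Nat.lt_succ_iff] using hi') h
  have h4 : (Finset.univ.filter (fun x => ¬ R.num x)).card = ∑ a ∈ Finset.range m, a := by
    rw [h2, Finset.card_image_of_injOn, Finset.card_sigma]
    · simp only [Finset.card_range]
    · rintro ⟨a, b⟩ hp ⟨a', b'⟩ hp' h
      simp only [Finset.coe_sigma, Set.mem_sigma_iff, Finset.coe_range, Set.mem_Iio] at hp hp'
      have g1 := hcode ⟨a, b⟩ hp.2 hp.1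
      have g2 := hcode ⟨a', b'⟩ hp'.2 hp'.1
      rw [← h] at g2
      obtain ⟨rfl, rfl⟩ := M.cd_unique F hp.2 hp.1.le (le_of_lt hp'.1)
        (le_of_lt (lt_trans hp'.2 hp'.1)) g1 g2
      rfl
  have h5 := Finset.card_filter_add_card_filter_not (s := (Finset.univ : Finset α))
    (fun x => R.num x)
  rw [h3, h4, Finset.card_univ] at h5
  have h6 := Finset.sum_range_id_mul_two m
  rcases Nat.eq_zero_or_pos m with h7 | h7
  · subst h7
    simp at h5
    omega
  · obtain ⟨k, rfl⟩ : ∃ k, m = k + 1 := ⟨m - 1, by omega⟩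
    rw [Nat.add_sub_cancel] at h6
    rw [← h5]
    nlinarith [h6]

/-- the tiling given by a model -/
lemma tiles {W : Wang Γ} {T : ℕ} (hT : 1 ≤ T) (hm : m = T + 1)
    (hcol : ∀ x y, Col W R x y) : Tiles W T := by
  classical
  have hcode : ∀ a b : ℕ, ∃ (d : α) (c : Γ × Γ), b < a → a < m → (Cd R e a b d ∧ R.col c d) := by
    intro a b
    have hdef : Nonempty (Γ × Γ) := by
      obtain ⟨d, hd, -⟩ := M.exists_code F (a := 1) le_rfl (by omega) 0 (by omega)
      obtain ⟨c, -⟩ := (hcol d d).1 (M.p1n hd.1).2.1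
      exact ⟨c⟩
    obtain ⟨c₀⟩ := hdef
    by_cases hb : b < a
    · by_cases ha : a < m
      · obtain ⟨d, hd, -⟩ := M.exists_code F (by omega) ha b hb
        obtain ⟨c, hc, -⟩ := (hcol d d).1 (M.p1n hd.1).2.1
        exact ⟨d, c, fun _ _ => ⟨hd, hc⟩⟩
      · exact ⟨e 0, c₀, fun _ h => absurd h ha⟩
    · exact ⟨e 0, c₀, fun h => absurd h hb⟩
  choose code c hcode using hcode
  have hv : ∀ a b, b + 1 < a → a < m → W.U (c a b).1 (c a (b + 1)).1 ∧
      W.R (c a b).2 (c a (b + 1)).2 := by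
    intro a b hb ha
    obtain ⟨h1, h2⟩ := hcode a b (by omega) ha
    obtain ⟨h3, h4⟩ := hcode a (b + 1) hb ha
    exact (hcol _ _).2.1 (M.v_of F hb ha h1 h3) _ _ h2 h4
  have hh : ∀ a b, b < a → a + 1 < m → W.R (c a b).1 (c (a + 1) b).1 ∧
      W.U (c a b).2 (c (a + 1) b).2 := by
    intro a b hb ha
    obtain ⟨h1, h2⟩ := hcode a b hb (by omega)
    obtain ⟨h3, h4⟩ := hcode (a + 1) b (by omega) ha
    exact (hcol _ _).2.2.1 (M.h_of F hb ha h1 h3) _ _ h2 h4
  have hz : ∀ a, 0 < a → a < m → W.b (c a 0).1 ∧ W.l (c a 0).2 := by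
    intro a h0 ha
    obtain ⟨h1, h2⟩ := hcode a 0 h0 ha
    exact (hcol _ (e 0)).2.2.2.1 (M.zc_of F h1) _ h2
  have ht : ∀ b, b < T → W.r (c T b).1 ∧ W.t (c T b).2 := by
    intro b hb
    obtain ⟨h1, h2⟩ := hcode T b hb (by omega)
    exact (hcol _ (e 0)).2.2.2.2.1 (M.top_of F (by omega) h1) _ h2
  have he : ∀ b, b < T → (c (b + 1) b).1 = (c (b + 1) b).2 := by
    intro b hb
    obtain ⟨h1, h2⟩ := hcode (b + 1) b (by omega) (by omega)
    exact ((hcol _ (e 0)).2.2.2.2.2 ((M.en_iff F (by omega) (by omega) h1).2 rfl) _ h2).1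
  have hc : W.c (c 1 0).1 := by
    obtain ⟨h1, h2⟩ := hcode 1 0 (by omega) (by omega)
    exact ((hcol _ (e 0)).2.2.2.2.2 ((M.en_iff F (by omega) (by omega) h1).2 rfl) _ h2).2
      (M.zc_of F h1)
  obtain ⟨f, hf1, hf2⟩ : ∃ f : ℕ → ℕ → Γ, (∀ x y, y ≤ x → f x y = (c (x + 1) y).1) ∧
      ∀ x y, x < y → f x y = (c (y + 1) x).2 := by
    refine ⟨fun x y => if y ≤ x then (c (x + 1) y).1 else (c (y + 1) x).2, fun x y h => ?_,
      fun x y h => ?_⟩
    · exact if_pos h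
    · exact if_neg (by omega)
  have hf3 : ∀ x y, x ≤ y → y < T → f x y = (c (y + 1) x).2 := by
    intro x y h hy
    rcases Nat.lt_or_eq_of_le h with h1 | h1
    · exact hf2 x y h1
    · subst h1
      rw [hf1 x x le_rfl]
      exact he x hy
  refine ⟨f, fun x y hx hy => ?_, fun x y hx hy => ?_, fun y hy => ?_, fun y hy => ?_,
    fun x hx => ?_, fun x hx => ?_, ?_⟩
  · rcases Nat.lt_or_ge x y with h | h
    · rw [hf2 x y h, hf3 (x + 1) y h hy]
      exact (hv (y + 1) x (by omega) (by omega)).2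
    · rw [hf1 x y h, hf1 (x + 1) y (by omega)]
      exact (hh (x + 1) y (by omega) (by omega)).1
  · rcases Nat.lt_or_ge y x with h | h
    · rw [hf1 x y h.le, hf1 x (y + 1) h]
      exact (hv (x + 1) y (by omega) (by omega)).1
    · rw [hf3 x y h (by omega), hf2 x (y + 1) (by omega)]
      exact (hh (y + 1) x (by omega) (by omega)).2
  · rw [hf3 0 y (Nat.zero_le _) hy]
    exact (hz (y + 1) (by omega) (by omega)).2
  · rw [hf1 (T - 1) y (by omega), show T - 1 + 1 = T by omega]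
    exact (ht y hy).1
  · rw [hf1 x 0 (Nat.zero_le _)]
    exact (hz (x + 1) (by omega) (by omega)).1
  · rw [hf3 x (T - 1) (by omega) (by omega), show T - 1 + 1 = T by omega]
    exact (ht x hx).2
  · rw [hf1 0 0 le_rfl]
    exact hc

end Model

end Pool.Agent.Helper29.Prefix
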