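import Pool.Agent.Helper29.Prefix.AAE.Sym

/-!
# The prefix `∀∀∃`: the intended models
-/

set_option autoImplicit false
set_option linter.unusedTactic false
set_option linter.unreachableTactic false
set_option linter.unusedSimpArgs false
set_option linter.unusedVariables false

namespace Pool.Agent.Helper29.Prefix

/-- the universe: the number `i` is `(i, i)`, `i ≤ m`, the code of `(a, b)` is `(a, b)`,
`b < a < m` -/
abbrev Idl (m : ℕ) : Type := {p : ℕ × ℕ // p.2 ≤ p.1 ∧ p.1 ≤ m ∧ (p.1 = m → p.2 = m)}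

/-- the intended relations -/
def inten {Γ : Type} (m : ℕ) (f : ℕ → ℕ → Γ) : Rel Γ (Idl m) where
  num x := x.1.1 = x.1.2
  z x := x.1.1 = 0
  l x := x.1.1 = m
  zc x := x.1.2 = 0 ∧ 0 < x.1.1
  en x := x.1.1 = x.1.2 + 1
  fn x := x.1.1 = x.1.2 + 2
  pl x := x.1.1 = x.1.2 ∧ x.1.1 + 1 = m
  top x := x.1.2 < x.1.1 ∧ x.1.1 + 1 = m
  col c x := c = (f (x.1.1 - 1) x.1.2, f x.1.2 (x.1.1 - 1))
  lt x y := x.1.1 = x.1.2 ∧ y.1.1 = y.1.2 ∧ x.1.1 < y.1.1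
  sc x y := x.1.1 = x.1.2 ∧ y.1.1 = y.1.2 ∧ x.1.1 + 1 = y.1.1
  p1 x y := x.1.1 = x.1.2 ∧ y.1.2 < y.1.1 ∧ x.1.1 = y.1.1
  p2 x y := x.1.1 = x.1.2 ∧ y.1.2 < y.1.1 ∧ x.1.1 = y.1.2
  l2 x y := x.1.1 = x.1.2 ∧ y.1.2 < y.1.1 ∧ x.1.1 < y.1.2
  gt x y := x.1.1 = x.1.2 ∧ y.1.2 < y.1.1 ∧ y.1.2 < x.1.1
  n2 x y := x.1.1 = x.1.2 ∧ y.1.2 < y.1.1 ∧ x.1.1 = y.1.2 + 1 ∧ x.1.1 < y.1.1
  n3 x y := x.1.1 = x.1.2 ∧ y.1.2 < y.1.1 ∧ x.1.1 = y.1.2 + 2 ∧ x.1.1 < y.1.1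
  r1 x y := x.1.1 = x.1.2 ∧ y.1.2 < y.1.1 ∧ x.1.1 + 1 = y.1.1
  b2 x y := x.1.1 = x.1.2 ∧ y.1.2 < y.1.1 ∧ x.1.1 + 1 = y.1.2
  g3 x y := x.1.1 = x.1.2 ∧ y.1.2 < y.1.1 ∧ y.1.1 < x.1.1
  v x y := x.1.2 < x.1.1 ∧ y.1.2 < y.1.1 ∧ x.1.1 = y.1.1 ∧ x.1.2 + 1 = y.1.2
  w x y := x.1.2 < x.1.1 ∧ y.1.2 < y.1.1 ∧ x.1.1 = y.1.1 ∧ x.1.2 + 2 = y.1.2
  g1 x y := x.1.2 < x.1.1 ∧ y.1.2 < y.1.1 ∧ x.1.1 = y.1.1 ∧ x.1.2 + 2 ≤ y.1.2
  g2 x y := x.1.2 < x.1.1 ∧ y.1.2 < y.1.1 ∧ y.1.1 = x.1.2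
  h x y := x.1.2 < x.1.1 ∧ y.1.2 < y.1.1 ∧ x.1.1 + 1 = y.1.1 ∧ x.1.2 = y.1.2

lemma inten_uni {Γ : Type} {m : ℕ} (hm : 2 ≤ m) (f : ℕ → ℕ → Γ) (x y : Idl m) :
    Uni (inten m f) (· = ·) x y := by
  obtain ⟨⟨a, b⟩, hx⟩ := x
  obtain ⟨⟨a', b'⟩, hy⟩ := y
  simp only at hx hy
  simp only [Uni, inten, Subtype.mk.injEq, Prod.mk.injEq]
  refine ⟨?_, ?_, ?_, ?_, ?_, ?_, ?_, ?_, ?_, ?_, ?_, ?_, ?_, ?_, ?_, ?_⟩ <;> omega

/-- two numbers -/
lemma dem_nn {Γ : Type} {m : ℕ} (hm : 2 ≤ m) (f : ℕ → ℕ → Γ) {a a' : ℕ}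
    (hx : a ≤ a ∧ a ≤ m ∧ (a = m → a = m)) (hy : a' ≤ a' ∧ a' ≤ m ∧ (a' = m → a' = m)) :
    ∃ z, Dem (inten m f) (· = ·) ⟨(a, a), hx⟩ ⟨(a', a'), hy⟩ z := by
  have h1 : a ≤ m := hx.2.1
  have h2 : a' ≤ m := hy.2.1
  rcases lt_trichotomy a a' with h | h | h
  · refine ⟨⟨(0, 0), by simp only; omega⟩, ?_⟩
    simp only [Dem, inten, Subtype.mk.injEq, Prod.mk.injEq]
    clear hx hy
    refine ⟨?_, ?_, ?_, ?_, ?_, ?_, ?_, ?_, ?_, ?_, ?_, ?_, ?_, ?_, ?_, ?_, ?_, ?_, ?_, ?_, ?_, ?_, ?_, ?_, ?_,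
      fun h => absurd trivial h⟩ <;>
      (intros; first | trivial | omega | (simp only [true_and, and_true]; omega))
  · rcases Nat.lt_or_eq_of_le h1 with h3 | h3
    · refine ⟨⟨(a + 1, a + 1), by simp only; omega⟩, ?_⟩
      simp only [Dem, inten, Subtype.mk.injEq, Prod.mk.injEq]
      clear hx hy
      refine ⟨?_, ?_, ?_, ?_, ?_, ?_, ?_, ?_, ?_, ?_, ?_, ?_, ?_, ?_, ?_, ?_, ?_, ?_, ?_, ?_, ?_, ?_, ?_, ?_, ?_,
        fun h => absurd trivial h⟩ <;>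
        (intros; first | trivial | omega | (simp only [true_and, and_true]; omega))
    · refine ⟨⟨(0, 0), by simp only; omega⟩, ?_⟩
      simp only [Dem, inten, Subtype.mk.injEq, Prod.mk.injEq]
      clear hx hy
      refine ⟨?_, ?_, ?_, ?_, ?_, ?_, ?_, ?_, ?_, ?_, ?_, ?_, ?_, ?_, ?_, ?_, ?_, ?_, ?_, ?_, ?_, ?_, ?_, ?_, ?_,
        fun h => absurd trivial h⟩ <;>
        (intros; first | trivial | omega | (simp only [true_and, and_true]; omega))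
  · rcases Nat.eq_zero_or_pos a' with h3 | h3
    · refine ⟨⟨(0, 0), by simp only; omega⟩, ?_⟩
      simp only [Dem, inten, Subtype.mk.injEq, Prod.mk.injEq]
      clear hx hy
      refine ⟨?_, ?_, ?_, ?_, ?_, ?_, ?_, ?_, ?_, ?_, ?_, ?_, ?_, ?_, ?_, ?_, ?_, ?_, ?_, ?_, ?_, ?_, ?_, ?_, ?_,
        fun h => absurd trivial h⟩ <;>
        (intros; first | trivial | omega | (simp only [true_and, and_true]; omega))
    · refine ⟨⟨(a', 0), by simp only; omega⟩, ?_⟩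
      simp only [Dem, inten, Subtype.mk.injEq, Prod.mk.injEq]
      clear hx hy
      refine ⟨?_, ?_, ?_, ?_, ?_, ?_, ?_, ?_, ?_, ?_, ?_, ?_, ?_, ?_, ?_, ?_, ?_, ?_, ?_, ?_, ?_, ?_, ?_, ?_, ?_,
        fun h => absurd trivial h⟩ <;>
        (intros; first | trivial | omega | (simp only [true_and, and_true]; omega))

/-- a number and a code -/
lemma dem_nc {Γ : Type} {m : ℕ} (hm : 2 ≤ m) (f : ℕ → ℕ → Γ) {a a' b' : ℕ}
    (hx : a ≤ a ∧ a ≤ m ∧ (a = m → a = m)) (hy : b' ≤ a' ∧ a' ≤ m ∧ (a' = m → b' = m))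
    (h2 : b' < a') (h3 : a' < m) :
    ∃ z, Dem (inten m f) (· = ·) ⟨(a, a), hx⟩ ⟨(a', b'), hy⟩ z := by
  have h1 : a ≤ m := hx.2.1
  rcases lt_trichotomy a a' with h | h | h
  · rcases lt_trichotomy a b' with h4 | h4 | h4
    · refine ⟨⟨(0, 0), by simp only; omega⟩, ?_⟩
      simp only [Dem, inten, Subtype.mk.injEq, Prod.mk.injEq]
      clear hx hy
      refine ⟨?_, ?_, ?_, ?_, ?_, ?_, ?_, ?_, ?_, ?_, ?_, ?_, ?_, ?_, ?_, ?_, ?_, ?_, ?_, ?_, ?_, ?_, ?_, ?_, ?_,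
        fun h => absurd trivial h⟩ <;>
        (intros; first | trivial | omega | (simp only [true_and, and_true]; omega))
    · rcases Nat.eq_zero_or_pos b' with h5 | h5
      · refine ⟨⟨(0, 0), by simp only; omega⟩, ?_⟩
        simp only [Dem, inten, Subtype.mk.injEq, Prod.mk.injEq]
        clear hx hy
        refine ⟨?_, ?_, ?_, ?_, ?_, ?_, ?_, ?_, ?_, ?_, ?_, ?_, ?_, ?_, ?_, ?_, ?_, ?_, ?_, ?_, ?_, ?_, ?_, ?_, ?_,
          fun h => absurd trivial h⟩ <;>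
          (intros; first | trivial | omega | (simp only [true_and, and_true]; omega))
      · refine ⟨⟨(b', 0), by simp only; omega⟩, ?_⟩
        simp only [Dem, inten, Subtype.mk.injEq, Prod.mk.injEq]
        clear hx hy
        refine ⟨?_, ?_, ?_, ?_, ?_, ?_, ?_, ?_, ?_, ?_, ?_, ?_, ?_, ?_, ?_, ?_, ?_, ?_, ?_, ?_, ?_, ?_, ?_, ?_, ?_,
          fun h => absurd trivial h⟩ <;>
          (intros; first | trivial | omega | (simp only [true_and, and_true]; omega))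
    · rcases (by omega : a = b' + 1 ∨ a = b' + 2 ∨ b' + 3 ≤ a) with h5 | h5 | h5
      · refine ⟨⟨(b', b'), by simp only; omega⟩, ?_⟩
        simp only [Dem, inten, Subtype.mk.injEq, Prod.mk.injEq]
        clear hx hy
        refine ⟨?_, ?_, ?_, ?_, ?_, ?_, ?_, ?_, ?_, ?_, ?_, ?_, ?_, ?_, ?_, ?_, ?_, ?_, ?_, ?_, ?_, ?_, ?_, ?_, ?_,
          fun h => absurd trivial h⟩ <;>
          (intros; first | trivial | omega | (simp only [true_and, and_true]; omega))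
      · refine ⟨⟨(b' + 1, b' + 1), by simp only; omega⟩, ?_⟩
        simp only [Dem, inten, Subtype.mk.injEq, Prod.mk.injEq]
        clear hx hy
        refine ⟨?_, ?_, ?_, ?_, ?_, ?_, ?_, ?_, ?_, ?_, ?_, ?_, ?_, ?_, ?_, ?_, ?_, ?_, ?_, ?_, ?_, ?_, ?_, ?_, ?_,
          fun h => absurd trivial h⟩ <;>
          (intros; first | trivial | omega | (simp only [true_and, and_true]; omega))
      · refine ⟨⟨(0, 0), by simp only; omega⟩, ?_⟩
        simp only [Dem, inten, Subtype.mk.injEq, Prod.mk.injEq]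
        clear hx hy
        refine ⟨?_, ?_, ?_, ?_, ?_, ?_, ?_, ?_, ?_, ?_, ?_, ?_, ?_, ?_, ?_, ?_, ?_, ?_, ?_, ?_, ?_, ?_, ?_, ?_, ?_,
          fun h => absurd trivial h⟩ <;>
          (intros; first | trivial | omega | (simp only [true_and, and_true]; omega))
  · rcases (by omega : b' + 1 = a' ∨ b' + 2 = a' ∨ b' + 3 ≤ a') with h5 | h5 | h5
    · refine ⟨⟨(b', b'), by simp only; omega⟩, ?_⟩
      simp only [Dem, inten, Subtype.mk.injEq, Prod.mk.injEq]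
      clear hx hy
      refine ⟨?_, ?_, ?_, ?_, ?_, ?_, ?_, ?_, ?_, ?_, ?_, ?_, ?_, ?_, ?_, ?_, ?_, ?_, ?_, ?_, ?_, ?_, ?_, ?_, ?_,
        fun h => absurd trivial h⟩ <;>
        (intros; first | trivial | omega | (simp only [true_and, and_true]; omega))
    · refine ⟨⟨(a', b' + 1), by simp only; omega⟩, ?_⟩
      simp only [Dem, inten, Subtype.mk.injEq, Prod.mk.injEq]
      clear hx hy
      refine ⟨?_, ?_, ?_, ?_, ?_, ?_, ?_, ?_, ?_, ?_, ?_, ?_, ?_, ?_, ?_, ?_, ?_, ?_, ?_, ?_, ?_, ?_, ?_, ?_, ?_,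
        fun h => absurd trivial h⟩ <;>
        (intros; first | trivial | omega | (simp only [true_and, and_true]; omega))
    · refine ⟨⟨(a', b' + 2), by simp only; omega⟩, ?_⟩
      simp only [Dem, inten, Subtype.mk.injEq, Prod.mk.injEq]
      clear hx hy
      refine ⟨?_, ?_, ?_, ?_, ?_, ?_, ?_, ?_, ?_, ?_, ?_, ?_, ?_, ?_, ?_, ?_, ?_, ?_, ?_, ?_, ?_, ?_, ?_, ?_, ?_,
        fun h => absurd trivial h⟩ <;>
        (intros; first | trivial | omega | (simp only [true_and, and_true]; omega))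
  · rcases (by omega : b' + 1 = a' ∨ b' + 2 ≤ a') with h5 | h5
    · refine ⟨⟨(0, 0), by simp only; omega⟩, ?_⟩
      simp only [Dem, inten, Subtype.mk.injEq, Prod.mk.injEq]
      clear hx hy
      refine ⟨?_, ?_, ?_, ?_, ?_, ?_, ?_, ?_, ?_, ?_, ?_, ?_, ?_, ?_, ?_, ?_, ?_, ?_, ?_, ?_, ?_, ?_, ?_, ?_, ?_,
        fun h => absurd trivial h⟩ <;>
        (intros; first | trivial | omega | (simp only [true_and, and_true]; omega))
    · refine ⟨⟨(a', b' + 1), by simp only; omega⟩, ?_⟩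
      simp only [Dem, inten, Subtype.mk.injEq, Prod.mk.injEq]
      clear hx hy
      refine ⟨?_, ?_, ?_, ?_, ?_, ?_, ?_, ?_, ?_, ?_, ?_, ?_, ?_, ?_, ?_, ?_, ?_, ?_, ?_, ?_, ?_, ?_, ?_, ?_, ?_,
        fun h => absurd trivial h⟩ <;>
        (intros; first | trivial | omega | (simp only [true_and, and_true]; omega))

/-- a code and a number -/
lemma dem_cn {Γ : Type} {m : ℕ} (hm : 2 ≤ m) (f : ℕ → ℕ → Γ) {a b a' : ℕ}
    (hx : b ≤ a ∧ a ≤ m ∧ (a = m → b = m)) (hy : a' ≤ a' ∧ a' ≤ m ∧ (a' = m → a' = m))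
    (h1 : b < a) (h2 : a < m) :
    ∃ z, Dem (inten m f) (· = ·) ⟨(a, b), hx⟩ ⟨(a', a'), hy⟩ z := by
  have h3 : a' ≤ m := hy.2.1
  rcases lt_trichotomy a' a with h | h | h
  · rcases (by omega : a' = b ∨ (a' ≠ b ∧ a' + 1 = a) ∨ (a' ≠ b ∧ a' + 1 < a)) with h4 | h4 | h4
    · rcases Nat.eq_zero_or_pos b with h5 | h5
      · refine ⟨⟨(0, 0), by simp only; omega⟩, ?_⟩
        simp only [Dem, inten, Subtype.mk.injEq, Prod.mk.injEq]
        clear hx hy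
        refine ⟨?_, ?_, ?_, ?_, ?_, ?_, ?_, ?_, ?_, ?_, ?_, ?_, ?_, ?_, ?_, ?_, ?_, ?_, ?_, ?_, ?_, ?_, ?_, ?_, ?_,
          fun _ h => absurd trivial h⟩ <;>
          (intros; first | trivial | omega | (simp only [true_and, and_true]; omega))
      · refine ⟨⟨(b - 1, b - 1), by simp only; omega⟩, ?_⟩
        simp only [Dem, inten, Subtype.mk.injEq, Prod.mk.injEq]
        clear hx hy
        refine ⟨?_, ?_, ?_, ?_, ?_, ?_, ?_, ?_, ?_, ?_, ?_, ?_, ?_, ?_, ?_, ?_, ?_, ?_, ?_, ?_, ?_, ?_, ?_, ?_, ?_,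
          fun _ h => absurd trivial h⟩ <;>
          (intros; first | trivial | omega | (simp only [true_and, and_true]; omega))
    · refine ⟨⟨(a, a), by simp only; omega⟩, ?_⟩
      simp only [Dem, inten, Subtype.mk.injEq, Prod.mk.injEq]
      clear hx hy
      refine ⟨?_, ?_, ?_, ?_, ?_, ?_, ?_, ?_, ?_, ?_, ?_, ?_, ?_, ?_, ?_, ?_, ?_, ?_, ?_, ?_, ?_, ?_, ?_, ?_, ?_,
        fun _ h => absurd trivial h⟩ <;>
        (intros; first | trivial | omega | (simp only [true_and, and_true]; omega))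
    · refine ⟨⟨(0, 0), by simp only; omega⟩, ?_⟩
      simp only [Dem, inten, Subtype.mk.injEq, Prod.mk.injEq]
      clear hx hy
      refine ⟨?_, ?_, ?_, ?_, ?_, ?_, ?_, ?_, ?_, ?_, ?_, ?_, ?_, ?_, ?_, ?_, ?_, ?_, ?_, ?_, ?_, ?_, ?_, ?_, ?_,
        fun _ h => absurd trivial h⟩ <;>
        (intros; first | trivial | omega | (simp only [true_and, and_true]; omega))
  · refine ⟨⟨(a - 1, a - 1), by simp only; omega⟩, ?_⟩
    simp only [Dem, inten, Subtype.mk.injEq, Prod.mk.injEq]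
    clear hx hy
    refine ⟨?_, ?_, ?_, ?_, ?_, ?_, ?_, ?_, ?_, ?_, ?_, ?_, ?_, ?_, ?_, ?_, ?_, ?_, ?_, ?_, ?_, ?_, ?_, ?_, ?_,
      fun _ h => absurd trivial h⟩ <;>
      (intros; first | trivial | omega | (simp only [true_and, and_true]; omega))
  · refine ⟨⟨(b, b), by simp only; omega⟩, ?_⟩
    simp only [Dem, inten, Subtype.mk.injEq, Prod.mk.injEq]
    clear hx hy
    refine ⟨?_, ?_, ?_, ?_, ?_, ?_, ?_, ?_, ?_, ?_, ?_, ?_, ?_, ?_, ?_, ?_, ?_, ?_, ?_, ?_, ?_, ?_, ?_, ?_, ?_,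
      fun _ h => absurd trivial h⟩ <;>
      (intros; first | trivial | omega | (simp only [true_and, and_true]; omega))

/-- two codes -/
lemma dem_cc {Γ : Type} {m : ℕ} (hm : 2 ≤ m) (f : ℕ → ℕ → Γ) {a b a' b' : ℕ}
    (hx : b ≤ a ∧ a ≤ m ∧ (a = m → b = m)) (hy : b' ≤ a' ∧ a' ≤ m ∧ (a' = m → b' = m))
    (h1 : b < a) (h2 : a < m) (h3 : b' < a') (h4 : a' < m) :
    ∃ z, Dem (inten m f) (· = ·) ⟨(a, b), hx⟩ ⟨(a', b'), hy⟩ z := by
  by_cases h5 : a = a'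
  · rcases (by omega : b = b' ∨ b' = b + 1 ∨ b = b' + 1 ∨ b + 2 ≤ b' ∨ b' + 2 ≤ b) with h6 | h6 | h6 | h6 | h6
    · rcases (by omega : b + 1 = a ∨ b + 1 < a) with h7 | h7
      · refine ⟨⟨(a, a), by simp only; omega⟩, ?_⟩
        simp only [Dem, inten, Subtype.mk.injEq, Prod.mk.injEq]
        clear hx hy
        refine ⟨?_, ?_, ?_, ?_, ?_, ?_, ?_, ?_, ?_, ?_, ?_, ?_, ?_, ?_, ?_, ?_, ?_, ?_, ?_, ?_, ?_, ?_, ?_, ?_, ?_,
          fun _ _ h => absurd ⟨h5, h6⟩ h⟩ <;>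
          (intros; first | trivial | omega | (simp only [true_and, and_true]; omega))
      · refine ⟨⟨(a - 1, b), by simp only; omega⟩, ?_⟩
        simp only [Dem, inten, Subtype.mk.injEq, Prod.mk.injEq]
        clear hx hy
        refine ⟨?_, ?_, ?_, ?_, ?_, ?_, ?_, ?_, ?_, ?_, ?_, ?_, ?_, ?_, ?_, ?_, ?_, ?_, ?_, ?_, ?_, ?_, ?_, ?_, ?_,
          fun _ _ h => absurd ⟨h5, h6⟩ h⟩ <;>
          (intros; first | trivial | omega | (simp only [true_and, and_true]; omega))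
    · refine ⟨⟨(b', b'), by simp only; omega⟩, ?_⟩
      simp only [Dem, inten, Subtype.mk.injEq, Prod.mk.injEq]
      clear hx hy
      refine ⟨?_, ?_, ?_, ?_, ?_, ?_, ?_, ?_, ?_, ?_, ?_, ?_, ?_, ?_, ?_, ?_, ?_, ?_, ?_, ?_, ?_, ?_, ?_, ?_, ?_,
        fun _ _ _ h => absurd (Or.inl ⟨by omega, by omega, by omega, by omega⟩) h⟩ <;>
        (intros; first | trivial | omega | (simp only [true_and, and_true]; omega))
    · refine ⟨⟨(a, a), by simp only; omega⟩, ?_⟩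
      simp only [Dem, inten, Subtype.mk.injEq, Prod.mk.injEq]
      clear hx hy
      refine ⟨?_, ?_, ?_, ?_, ?_, ?_, ?_, ?_, ?_, ?_, ?_, ?_, ?_, ?_, ?_, ?_, ?_, ?_, ?_, ?_, ?_, ?_, ?_, ?_, ?_,
        fun _ _ _ h => absurd (Or.inr (Or.inl ⟨by omega, by omega, by omega, by omega⟩)) h⟩ <;>
        (intros; first | trivial | omega | (simp only [true_and, and_true]; omega))
    · refine ⟨⟨(b', b'), by simp only; omega⟩, ?_⟩
      simp only [Dem, inten, Subtype.mk.injEq, Prod.mk.injEq]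
      clear hx hy
      refine ⟨?_, ?_, ?_, ?_, ?_, ?_, ?_, ?_, ?_, ?_, ?_, ?_, ?_, ?_, ?_, ?_, ?_, ?_, ?_, ?_, ?_, ?_, ?_, ?_, ?_,
        fun _ _ _ h => absurd (Or.inr (Or.inr (Or.inl ⟨by omega, by omega, by omega, by omega⟩))) h⟩ <;>
        (intros; first | trivial | omega | (simp only [true_and, and_true]; omega))
    · rcases (by omega : b + 1 = a ∨ b + 1 < a) with h7 | h7
      · refine ⟨⟨(0, 0), by simp only; omega⟩, ?_⟩
        simp only [Dem, inten, Subtype.mk.injEq, Prod.mk.injEq]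
        clear hx hy
        refine ⟨?_, ?_, ?_, ?_, ?_, ?_, ?_, ?_, ?_, ?_, ?_, ?_, ?_, ?_, ?_, ?_, ?_, ?_, ?_, ?_, ?_, ?_, ?_, ?_, ?_,
          fun _ _ _ h => absurd (Or.inr (Or.inr (Or.inr (Or.inl ⟨by omega, by omega, by omega, by omega⟩)))) h⟩ <;>
          (intros; first | trivial | omega | (simp only [true_and, and_true]; omega))
      · refine ⟨⟨(a, b + 1), by simp only; omega⟩, ?_⟩
        simp only [Dem, inten, Subtype.mk.injEq, Prod.mk.injEq]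
        clear hx hy
        refine ⟨?_, ?_, ?_, ?_, ?_, ?_, ?_, ?_, ?_, ?_, ?_, ?_, ?_, ?_, ?_, ?_, ?_, ?_, ?_, ?_, ?_, ?_, ?_, ?_, ?_,
          fun _ _ _ h => absurd (Or.inr (Or.inr (Or.inr (Or.inl ⟨by omega, by omega, by omega, by omega⟩)))) h⟩ <;>
          (intros; first | trivial | omega | (simp only [true_and, and_true]; omega))
  · rcases (by omega : a' = b ∨ a = b' ∨ (a + 1 = a' ∧ b = b') ∨ (a = a' + 1 ∧ b = b') ∨
      (a' ≠ b ∧ a ≠ b' ∧ ¬ (a + 1 = a' ∧ b = b') ∧ ¬ (a = a' + 1 ∧ b = b'))) with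
      h6 | h6 | h6 | h6 | h6
    · refine ⟨⟨(b', b'), by simp only; omega⟩, ?_⟩
      simp only [Dem, inten, Subtype.mk.injEq, Prod.mk.injEq]
      clear hx hy
      refine ⟨?_, ?_, ?_, ?_, ?_, ?_, ?_, ?_, ?_, ?_, ?_, ?_, ?_, ?_, ?_, ?_, ?_, ?_, ?_, ?_, ?_, ?_, ?_, ?_, ?_,
        fun _ _ _ h => absurd (Or.inr (Or.inr (Or.inr (Or.inr (Or.inl ⟨by omega, by omega, by omega⟩))))) h⟩ <;>
        (intros; first | trivial | omega | (simp only [true_and, and_true]; omega))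
    · rcases (by omega : b + 1 = a ∨ b + 1 < a) with h7 | h7
      · refine ⟨⟨(0, 0), by simp only; omega⟩, ?_⟩
        simp only [Dem, inten, Subtype.mk.injEq, Prod.mk.injEq]
        clear hx hy
        refine ⟨?_, ?_, ?_, ?_, ?_, ?_, ?_, ?_, ?_, ?_, ?_, ?_, ?_, ?_, ?_, ?_, ?_, ?_, ?_, ?_, ?_, ?_, ?_, ?_, ?_,
          fun _ _ _ h => absurd (Or.inr (Or.inr (Or.inr (Or.inr (Or.inr (Or.inl ⟨by omega, by omega, by omega⟩)))))) h⟩ <;>
          (intros; first | trivial | omega | (simp only [true_and, and_true]; omega))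
      · refine ⟨⟨(a, b + 1), by simp only; omega⟩, ?_⟩
        simp only [Dem, inten, Subtype.mk.injEq, Prod.mk.injEq]
        clear hx hy
        refine ⟨?_, ?_, ?_, ?_, ?_, ?_, ?_, ?_, ?_, ?_, ?_, ?_, ?_, ?_, ?_, ?_, ?_, ?_, ?_, ?_, ?_, ?_, ?_, ?_, ?_,
          fun _ _ _ h => absurd (Or.inr (Or.inr (Or.inr (Or.inr (Or.inr (Or.inl ⟨by omega, by omega, by omega⟩)))))) h⟩ <;>
          (intros; first | trivial | omega | (simp only [true_and, and_true]; omega))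
    · refine ⟨⟨(a, a), by simp only; omega⟩, ?_⟩
      simp only [Dem, inten, Subtype.mk.injEq, Prod.mk.injEq]
      clear hx hy
      refine ⟨?_, ?_, ?_, ?_, ?_, ?_, ?_, ?_, ?_, ?_, ?_, ?_, ?_, ?_, ?_, ?_, ?_, ?_, ?_, ?_, ?_, ?_, ?_, ?_, ?_,
        fun _ _ _ h => absurd (Or.inr (Or.inr (Or.inr (Or.inr (Or.inr (Or.inr (Or.inl ⟨by omega, by omega, by omega, by omega⟩))))))) h⟩ <;>
        (intros; first | trivial | omega | (simp only [true_and, and_true]; omega))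
    · refine ⟨⟨(b, b), by simp only; omega⟩, ?_⟩
      simp only [Dem, inten, Subtype.mk.injEq, Prod.mk.injEq]
      clear hx hy
      refine ⟨?_, ?_, ?_, ?_, ?_, ?_, ?_, ?_, ?_, ?_, ?_, ?_, ?_, ?_, ?_, ?_, ?_, ?_, ?_, ?_, ?_, ?_, ?_, ?_, ?_,
        fun _ _ _ h => absurd (Or.inr (Or.inr (Or.inr (Or.inr (Or.inr (Or.inr (Or.inr (⟨by omega, by omega, by omega, by omega⟩)))))))) h⟩ <;>
        (intros; first | trivial | omega | (simp only [true_and, and_true]; omega))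
    · refine ⟨⟨(a, a), by simp only; omega⟩, ?_⟩
      simp only [Dem, inten, Subtype.mk.injEq, Prod.mk.injEq]
      clear hx hy
      refine ⟨?_, ?_, ?_, ?_, ?_, ?_, ?_, ?_, ?_, ?_, ?_, ?_, ?_, ?_, ?_, ?_, ?_, ?_, ?_, ?_, ?_, ?_, ?_, ?_, ?_,
        fun _ _ _ _ => Or.inl ⟨⟨trivial, h1, trivial⟩, fun h => h5 h.2.2⟩⟩ <;>
        (intros; first | trivial | omega | (simp only [true_and, and_true]; omega))

lemma inten_dem {Γ : Type} {m : ℕ} (hm : 2 ≤ m) (f : ℕ → ℕ → Γ) (x y : Idl m) :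
    ∃ z, Dem (inten m f) (· = ·) x y z := by
  obtain ⟨⟨a, b⟩, hx⟩ := x
  obtain ⟨⟨a', b'⟩, hy⟩ := y
  simp only at hx hy
  rcases Nat.lt_or_eq_of_le hx.1 with h1 | h1
  · have h2 : a < m := by omega
    rcases Nat.lt_or_eq_of_le hy.1 with h3 | h3
    · exact dem_cc hm f hx hy h1 h2 h3 (by omega)
    · subst h3
      exact dem_cn hm f hx hy h1 h2
  · subst h1
    rcases Nat.lt_or_eq_of_le hy.1 with h3 | h3
    · exact dem_nc hm f hx hy h3 (by omega)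
    · subst h3
      exact dem_nn hm f hx hy

/-- the colours of the intended model of a tiling -/
lemma inten_col {Γ : Type} {W : Wang Γ} {T : ℕ} (hT : 1 ≤ T) {f : ℕ → ℕ → Γ}
    (hR : ∀ x y, x + 1 < T → y < T → W.R (f x y) (f (x + 1) y))
    (hU : ∀ x y, x < T → y + 1 < T → W.U (f x y) (f x (y + 1)))
    (hl : ∀ y, y < T → W.l (f 0 y)) (hr : ∀ y, y < T → W.r (f (T - 1) y))
    (hb : ∀ x, x < T → W.b (f x 0)) (ht : ∀ x, x < T → W.t (f x (T - 1))) (hc : W.c (f 0 0))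
    (x y : Idl (T + 1)) : Col W (inten (T + 1) f) x y := by
  obtain ⟨⟨a, b⟩, hx⟩ := x
  obtain ⟨⟨a', b'⟩, hy⟩ := y
  simp only at hx hy
  refine ⟨fun _ => ⟨_, rfl, fun c' h => h⟩, ?_, ?_, ?_, ?_, ?_⟩
  · rintro ⟨h1, h2, h3, h4⟩ c c' rfl rfl
    simp only at h1 h2 h3 h4 ⊢
    subst h3 h4
    exact ⟨hU (a - 1) b (by omega) (by omega), hR b (a - 1) (by omega) (by omega)⟩
  · rintro ⟨h1, h2, h3, h4⟩ c c' rfl rfl
    simp only at h1 h2 h3 h4 ⊢
    subst h3 h4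
    have h5 := hR (a - 1) b (by omega) (by omega)
    have h6 := hU b (a - 1) (by omega) (by omega)
    rw [show a - 1 + 1 = a + 1 - 1 by omega] at h5 h6
    exact ⟨h5, h6⟩
  · rintro ⟨h1, h2⟩ c rfl
    simp only at h1 h2 ⊢
    subst h1
    exact ⟨hb (a - 1) (by omega), hl (a - 1) (by omega)⟩
  · rintro ⟨h1, h2⟩ c rfl
    simp only at h1 h2 ⊢
    rw [show a - 1 = T - 1 by omega]
    exact ⟨hr b (by omega), ht b (by omega)⟩
  · rintro h1 c rfl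
    have h1' : a = b + 1 := h1
    subst h1'
    refine ⟨rfl, fun h2 => ?_⟩
    have h3 : b = 0 := h2.1
    subst h3
    exact hc

/-- the intended model of a tiling is a model -/
lemma inten_mtx {Γ : Type} {W : Wang Γ} {T : ℕ} (hT : 1 ≤ T) (h : Tiles W T) :
    ∃ R : Rel Γ (Idl (T + 1)), ∀ x y, ∃ z, Mtx W R (· = ·) x y z := by
  obtain ⟨f, hR, hU, hl, hr, hb, ht, hc⟩ := h
  refine ⟨inten (T + 1) f, fun x y => ?_⟩
  obtain ⟨z, hz⟩ := inten_dem (by omega) f x y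
  exact ⟨z, inten_uni (by omega) f x y, inten_col hT hR hU hl hr hb ht hc x y, hz⟩

instance (m : ℕ) : Finite (Idl m) := by
  refine Finite.of_injective (β := Fin (m + 1) × Fin (m + 1))
    (fun x => (⟨x.1.1, by have := x.2; omega⟩, ⟨x.1.2, by have := x.2; omega⟩)) ?_
  rintro ⟨⟨a, b⟩, hx⟩ ⟨⟨a', b'⟩, hy⟩ h
  simp only [Prod.mk.injEq, Fin.mk.injEq] at h
  obtain ⟨rfl, rfl⟩ := h
  rfl

lemma card_idl (m : ℕ) [Fintype (Idl m)] : 2 * Fintype.card (Idl m) = m * (m + 1) + 2 := by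
  classical
  have h1 : Fintype.card (Idl m) = (insert (m, m) (((Finset.range m).sigma
      (fun a => Finset.range (a + 1))).image (fun p => (p.1, p.2)))).card := by
    rw [← Fintype.card_coe]
    refine Fintype.card_congr (Equiv.subtypeEquivRight (fun p => ?_))
    obtain ⟨a, b⟩ := p
    simp only [Finset.mem_insert, Prod.mk.injEq, Finset.mem_image, Finset.mem_sigma,
      Finset.mem_range, Sigma.exists]
    constructor
    · rintro ⟨h1, h2, h3⟩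
      rcases Nat.lt_or_eq_of_le h2 with h4 | h4
      · exact Or.inr ⟨a, b, ⟨h4, by omega⟩, rfl, rfl⟩
      · exact Or.inl ⟨h4, h3 h4⟩
    · rintro (⟨rfl, rfl⟩ | ⟨a', b', ⟨h1, h2⟩, rfl, rfl⟩)
      · exact ⟨le_rfl, le_rfl, fun _ => rfl⟩
      · exact ⟨by omega, by omega, by omega⟩
  rw [h1, Finset.card_insert_of_notMem, Finset.card_image_of_injective, Finset.card_sigma]
  · simp only [Finset.card_range]
    have h2 := Finset.sum_range_id_mul_two (m + 1)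
    rw [Finset.sum_range_succ'] at h2
    simp only [Nat.add_sub_cancel, add_zero] at h2
    linarith
  · rintro ⟨a, b⟩ ⟨a', b'⟩ h
    simp only [Prod.mk.injEq] at h
    obtain ⟨rfl, rfl⟩ := h
    rfl
  · simp only [Finset.mem_image, Finset.mem_sigma, Finset.mem_range, Prod.mk.injEq,
      Sigma.exists, not_exists, not_and]
    rintro a b ⟨h2, h3⟩ rfl
    omega

end Pool.Agent.Helper29.Prefix
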