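import Pool.Agent.Helper20.Pfx.Main
import Pool.Agent.Helper29.Prefix.QF
import Pool.Agent.Helper29.Prefix.AAE.Codes
import Pool.Agent.Helper29.Prefix.AAE.Intended

/-!
# The prefix `∀∀∃` is universal
-/

set_option autoImplicit false

namespace Pool.Agent.Helper29.Prefix

open Pool.Agent.Helper20.Spectra

/-- the relations from the interpretation of the symbols -/
def relOf {Γ α : Type} (u : Fin 8 ⊕ (Γ × Γ) → α → Prop) (b : Fin 16 → α → α → Prop) : Rel Γ α where
  num := u (Sum.inl 0)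
  z := u (Sum.inl 1)
  l := u (Sum.inl 2)
  zc := u (Sum.inl 3)
  en := u (Sum.inl 4)
  fn := u (Sum.inl 5)
  pl := u (Sum.inl 6)
  top := u (Sum.inl 7)
  col := fun c => u (Sum.inr c)
  lt := b 0
  sc := b 1
  p1 := b 2
  p2 := b 3
  l2 := b 4
  gt := b 5
  n2 := b 6
  n3 := b 7
  r1 := b 8
  b2 := b 9
  v := b 10
  w := b 11
  g1 := b 12
  g2 := b 13
  g3 := b 14
  h := b 15

lemma exists_relOf {Γ α : Type} (R : Rel Γ α) : ∃ u b, relOf u b = R := by
  refine ⟨Sum.elim ![R.num, R.z, R.l, R.zc, R.en, R.fn, R.pl, R.top] R.col,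
    ![R.lt, R.sc, R.p1, R.p2, R.l2, R.gt, R.n2, R.n3, R.r1, R.b2, R.v, R.w, R.g1, R.g2, R.g3,
      R.h], ?_⟩
  rfl

/-- the matrix as a property of the atomic diagram -/
def mat {Γ : Type} (W : Wang Γ) (D : Dg (Fin 8 ⊕ (Γ × Γ)) (Fin 16)) : Prop :=
  Mtx W (relOf D.1 D.2.1) D.2.2 0 1 2

lemma mat_dg {Γ M : Type} (W : Wang Γ) (u : Fin 8 ⊕ (Γ × Γ) → M → Prop)
    (b : Fin 16 → M → M → Prop) (x y z : M) :
    mat W (dg u b ![x, y, z]) ↔ Mtx W (relOf u b) (· = ·) x y z := Iff.rfl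

theorem aae_universal : UniversalPrefix wAAE := by
  intro Θ
  let W := (blockWang Θ).dbl
  refine ⟨2 * Polynomial.X ^ 2 + 3 * Polynomial.X + 2, _,
    prefixSpectrum_of (mat W) (by decide) (by decide) (by decide), fun N hN => ?_⟩
  have hp : (2 * Polynomial.X ^ 2 + 3 * Polynomial.X + 2 : Polynomial ℕ).eval N =
      2 * N ^ 2 + 3 * N + 2 := by
    simp
  rw [mem_squareSizes_iff Θ hN, tiles_dbl _ hN, hp]
  constructor
  · intro h
    obtain ⟨R, hR⟩ := inten_mtx (by omega) h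
    obtain ⟨u, b, hub⟩ := exists_relOf R
    have := Fintype.ofFinite (Idl (2 * N + 1))
    refine ⟨by omega, Idl (2 * N + 1), inferInstance, u, b, ?_, fun x y => ?_⟩
    · have := card_idl (2 * N + 1)
      nlinarith
    · obtain ⟨z, hz⟩ := hR x y
      refine ⟨z, ?_⟩
      rw [mat_dg, hub]
      exact hz
  · rintro ⟨-, M, _, u, b, hM, hmat⟩
    have hne : Nonempty M := Fintype.card_pos_iff.1 (by rw [hM]; omega)
    have H : ∀ x y, ∃ z, Mtx W (relOf u b) (· = ·) x y z := hmat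
    have Mo := model_of H
    obtain ⟨m, e, h1, h2, h3, h4⟩ := Mo.exists_chain
    have F : Full (relOf u b) e m := ⟨h1, h2, h3, h4⟩
    have hcard := Mo.card_eq F
    rw [hM] at hcard
    have hm : m = 2 * N + 1 := by
      rcases lt_trichotomy m (2 * N + 1) with h | h | h
      · have : m ≤ 2 * N := by omega
        nlinarith
      · exact h
      · have : 2 * N + 2 ≤ m := by omega
        nlinarith
    refine Mo.tiles F (by omega) hm (fun x y => ?_)
    obtain ⟨z, hz⟩ := H x y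
    exact hz.2.1

end Pool.Agent.Helper29.Prefix
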