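import Pool.Agent.Helper29.Prefix.AAE.Sym

/-!
# The prefix `∀∀∃`: the numbers of a model
-/

set_option autoImplicit false

namespace Pool.Agent.Helper29.Prefix

variable {Γ α : Type} {R : Rel Γ α}

/-- `e 0, …, e j` is an initial segment of the numbers. -/
structure Base (R : Rel Γ α) (e : ℕ → α) (j : ℕ) : Prop where
  z0 : R.z (e 0)
  nl : ∀ i < j, ¬ R.l (e i)
  num : ∀ i ≤ j, R.num (e i)
  lt : ∀ i ≤ j, ∀ r, R.lt r (e i) ↔ ∃ i' < i, r = e i'
  succ : ∀ i < j, ∀ w, R.sc (e i) w ↔ w = e (i + 1)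

/-- first components -/
def X1 (R : Rel Γ α) (e : ℕ → α) (j : ℕ) : Prop :=
  ∀ i ≤ j, ∀ k < i, ∀ d, R.p1 (e i) d → R.p2 (e k) d → ∀ u, R.p1 u d → u = e i

/-- second components -/
def X2 (R : Rel Γ α) (e : ℕ → α) (j : ℕ) : Prop :=
  ∀ k ≤ j, ∀ d, R.p2 (e k) d → ∀ u, R.p2 u d → u = e k

namespace Model

variable (M : Model R)

include M

lemma irr (x : α) : ¬ R.lt x x := fun h => M.asym h h

lemma inj {e : ℕ → α} {j : ℕ} (B : Base R e j) {i i' : ℕ} (hi : i ≤ j) (hi' : i' ≤ j)
    (h : e i = e i') : i = i' := by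
  rcases lt_trichotomy i i' with h1 | h1 | h1
  · exfalso
    apply M.irr (e i')
    have h2 := (B.lt i' hi' (e i)).2 ⟨i, h1, rfl⟩
    rwa [h] at h2
  · exact h1
  · exfalso
    apply M.irr (e i)
    have h2 := (B.lt i hi (e i')).2 ⟨i', h1, rfl⟩
    rwa [← h] at h2

lemma pred {e : ℕ → α} {j : ℕ} (B : Base R e j) {i : ℕ} (hi : i < j) {r : α}
    (h : R.sc r (e (i + 1))) : r = e i := by
  obtain ⟨i', h1, rfl⟩ := (B.lt (i + 1) hi r).1 (M.sclt h)
  have h2 := (B.succ i' (by omega) _).1 h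
  have h3 := M.inj B (by omega) (by omega) h2
  congr 1
  omega

/-- the step along `V` -/
lemma vstep {e : ℕ → α} {j : ℕ} (B : Base R e j) {J : ℕ} (H : X2 R e J) {k : ℕ} (hk : k < j)
    (hk' : k ≤ J) {d z : α} (hd : R.p2 (e k) d) (hz : R.v d z) : R.p2 (e (k + 1)) z := by
  obtain ⟨t, h1, h2⟩ := M.dv hz
  obtain ⟨t', h3, h4⟩ := M.dn2 h2
  rw [H k hk' d hd t' h3, B.succ k hk] at h4
  rwa [h4] at h1

/-- the start of a chain -/
lemma base_zero {e : ℕ → α} (h0 : R.z (e 0)) : Base R e 0 := by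
  refine ⟨h0, fun i hi => absurd hi (Nat.not_lt_zero i), fun i hi => ?_, fun i hi r => ?_,
    fun i hi => absurd hi (Nat.not_lt_zero i)⟩
  · obtain rfl : i = 0 := by omega
    exact M.zn h0
  · obtain rfl : i = 0 := by omega
    constructor
    · intro h
      exfalso
      by_cases h1 : e 0 = r
      · rw [← h1] at h
        exact M.irr _ h
      · exact M.asym h (M.zlt h0 (M.ltn h).1 h1)
    · rintro ⟨i', hi', -⟩
      omega

omit M in
lemma x1_zero {e : ℕ → α} : X1 R e 0 := by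
  intro i hi k hk
  omega

lemma x2_zero {e : ℕ → α} (h0 : R.z (e 0)) : X2 R e 0 := by
  intro k hk d hd u hu
  obtain rfl : k = 0 := by omega
  exact M.zz (M.zc2 ((M.zc1 h0).2 hd) hu) h0

/-- Step A -/
lemma stepA {e : ℕ → α} {j : ℕ} (B : Base R e j) (H1 : X1 R e j) (H2 : X2 R e j) {w r : α}
    (hw : R.sc (e j) w) (hr : R.lt r w) : ∃ i ≤ j, r = e i := by
  by_cases hz : R.z r
  · exact ⟨0, Nat.zero_le _, M.zz hz B.z0⟩
  obtain ⟨s, h1, h2, h3⟩ := M.dtl hr hz
  have key : ∀ n l, j - l = n → l ≤ j → ∀ s, R.g3 w s → R.p2 (e l) s →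
      ∃ i, l < i ∧ i ≤ j ∧ R.p1 (e i) s := by
    intro n
    induction n with
    | zero =>
      intro l hn hl s hs1 hs2
      obtain rfl : l = j := by omega
      obtain ⟨t, h4, h5⟩ := M.dg3' hs1
      rw [H2 l le_rfl s hs2 t h4] at h5
      exact absurd hw h5
    | succ n ih =>
      intro l hn hl s hs1 hs2
      by_cases hE : R.en s
      · obtain ⟨u, hu⟩ := M.den hE
        obtain ⟨t, h4, h5⟩ := M.dp1e hu hE
        rw [H2 l hl s hs2 t h4, B.succ l (by omega)] at h5
        exact ⟨l + 1, by omega, by omega, by rwa [h5] at hu⟩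
      · obtain ⟨s', h4, h5⟩ := M.dg3 hs1 hE
        obtain ⟨i, h6, h7, h8⟩ := ih (l + 1) (by omega) (by omega) s' h5
          (M.vstep B H2 (by omega) hl hs2 h4)
        obtain ⟨u, h10, h9⟩ := M.dv' h4
        rw [H1 i h7 (l + 1) h6 s' h8 (M.vstep B H2 (by omega) hl hs2 h4) u h10] at h9
        exact ⟨i, by omega, h7, h9⟩
  have h4 : R.p2 (e 0) s := (M.zc1 B.z0).1 h2
  obtain ⟨i, h5, h6, h7⟩ := key j 0 (by omega) (by omega) s h3 h4
  exact ⟨i, h6, H1 i h6 0 h5 s h7 h4 r h1⟩

/-- Steps B and C -/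
lemma base_succ {e : ℕ → α} {j : ℕ} (B : Base R e j) (H1 : X1 R e j) (H2 : X2 R e j)
    (hl : ¬ R.l (e j)) (hw : R.sc (e j) (e (j + 1))) : Base R e (j + 1) := by
  have hne : ∀ w, R.sc (e j) w → ∀ i ≤ j, w ≠ e i := by
    intro w hw i hi h
    have h1 := M.sclt hw
    rw [h] at h1
    obtain ⟨i', h2, h3⟩ := (B.lt i hi (e j)).1 h1
    have := M.inj B le_rfl (by omega) h3
    omega
  have huniq : ∀ w w', R.sc (e j) w → R.sc (e j) w' → ¬ R.lt w w' := by
    intro w w' h1 h2 h3
    obtain ⟨i, hi, h4⟩ := M.stepA B H1 H2 h2 h3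
    exact hne w h1 i hi h4
  refine ⟨B.z0, fun i hi => ?_, fun i hi => ?_, fun i hi r => ?_, fun i hi w => ?_⟩
  · rcases Nat.lt_succ_iff_lt_or_eq.1 hi with h | h
    · exact B.nl i h
    · rw [h]
      exact hl
  · rcases Nat.le_succ_iff.1 hi with h | h
    · exact B.num i h
    · rw [h]
      exact (M.ltn (M.sclt hw)).2
  · rcases Nat.le_succ_iff.1 hi with h | h
    · exact B.lt i h r
    · subst h
      constructor
      · intro h
        obtain ⟨i, h1, h2⟩ := M.stepA B H1 H2 hw h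
        exact ⟨i, by omega, h2⟩
      · rintro ⟨i, hi, rfl⟩
        rcases M.tour (B.num i (by omega)) (M.ltn (M.sclt hw)).2
          (fun h => hne _ hw i (by omega) h.symm) with h | h
        · exact h
        · exfalso
          obtain ⟨i', h1, h2⟩ := (B.lt i (by omega) _).1 h
          exact hne _ hw i' (by omega) h2
  · rcases Nat.lt_succ_iff_lt_or_eq.1 hi with h | h
    · exact B.succ i h w
    · subst h
      constructor
      · intro h
        by_contra hne'
        rcases M.tour (M.ltn (M.sclt h)).2 (M.ltn (M.sclt hw)).2 hne' with h1 | h1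
        · exact huniq _ _ h hw h1
        · exact huniq _ _ hw h h1
      · rintro rfl
        exact hw

/-- Step D -/
lemma x1_succ {e : ℕ → α} {j : ℕ} (B : Base R e (j + 1)) (H1 : X1 R e j) (H2 : X2 R e j) :
    X1 R e (j + 1) := by
  intro i hi
  rcases Nat.le_succ_iff.1 hi with h | h
  · exact H1 i h
  subst h
  have hscj : ∀ u, R.sc (e j) u → u = e (j + 1) := fun u hu => (B.succ j (by omega) u).1 hu
  have hV : ∀ {k : ℕ}, k ≤ j → ∀ {d z : α}, R.p2 (e k) d → R.v d z → R.p2 (e (k + 1)) z :=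
    fun {k} hk {d z} hd hz => M.vstep B H2 (by omega) hk hd hz
  have key : ∀ n k, j - k = n → k < j + 1 → ∀ d, R.p1 (e (j + 1)) d → R.p2 (e k) d →
      ∀ u, R.p1 u d → u = e (j + 1) := by
    intro n
    induction n using Nat.strong_induction_on with
    | _ n ih =>
      intro k hn hk d hd1 hd2 u hu
      by_cases hE : R.en d
      · obtain ⟨t, h1, h2⟩ := M.dp1e hd1 hE
        rw [H2 k (by omega) d hd2 t h1] at h2
        have h3 := M.pred B (by omega) h2
        obtain ⟨t', h4, h5⟩ := M.dp1e hu hE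
        rw [H2 k (by omega) d hd2 t' h4, h3] at h5
        exact hscj u h5
      by_cases hF : R.fn d
      · obtain ⟨z, h1, h2, h3⟩ := M.dp1f hd1 hE hF
        obtain ⟨t, h4, h5⟩ := M.dp1e h2 h3
        rw [M.pred B (by omega) h5] at h4
        have h6 := hV (by omega) hd2 h1
        have h7 := H2 j le_rfl z h4 _ h6
        obtain ⟨z', g1, g2, g3⟩ := M.dp1f hu hE hF
        obtain ⟨t', g4, g5⟩ := M.dp1e g2 g3
        have g6 := hV (by omega) hd2 g1
        rw [h7] at g6
        rw [H2 j le_rfl z' g6 _ g4] at g5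
        exact hscj u g5
      -- the general case
      have hW : ∀ z, R.w d z → R.g1 d z ∧ ∃ k', k' = k + 1 ∧ R.n2 (e k') d ∧
          ∃ t, R.p2 t z ∧ R.sc (e k') t := by
        intro z hz
        obtain ⟨t, h1, -, -, h2⟩ := M.dg1 (M.wg hz)
        obtain ⟨t', h3, h4⟩ := M.dn3 (h2 hz)
        obtain ⟨t'', h5, h6⟩ := M.dn2 h3
        rw [H2 k (by omega) d hd2 t'' h5, B.succ k hk] at h6
        rw [h6] at h3 h4
        exact ⟨M.wg hz, k + 1, rfl, h3, t, h1, h4⟩
      obtain ⟨z, h1, h2⟩ := M.dp1w hd1 hE hF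
      obtain ⟨h3, k', rfl, h4, t, h5, h6⟩ := hW z h1
      have hkj : k + 1 ≠ j + 1 := by
        intro h
        rw [h] at h4
        exact (M.p1n hd1).2.2.2.2.2 h4
      rw [B.succ (k + 1) (by omega)] at h6
      rw [h6] at h5
      have hkj' : k + 1 + 1 ≠ j + 1 := by
        intro h
        rw [h] at h5
        exact (M.p1n h2).2.2.2.2.1 h5
      -- the second code
      obtain ⟨z', g1, g2⟩ := M.dp1w hu hE hF
      obtain ⟨g3, k', rfl, g4, t', g5, g6⟩ := hW z' g1
      rw [B.succ (k + 1) (by omega)] at g6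
      rw [g6] at g5
      -- `Pr1 (e j, d)`
      obtain ⟨t'', r1, r2⟩ := M.dr1 hd1
      rw [M.pred B (by omega) r1] at r2
      have run : ∀ n' k', j - k' = n' → k < k' → k' ≤ j → ∀ s, R.g1 d s → R.p2 (e k') s →
          R.p1 (e (j + 1)) s ∧ ∀ u, R.p1 u s → u = e (j + 1) := by
        intro n'
        induction n' with
        | zero =>
          intro k' hn' hk' hk'' s hs1 hs2
          obtain rfl : k' = j := by omega
          obtain ⟨t, a1, -, a2, -⟩ := M.dg1 hs1
          rw [H2 k' le_rfl s hs2 t a1] at a2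
          have hEs := a2.2 r2
          have hall : ∀ u, R.p1 u s → u = e (k' + 1) := by
            intro u hu
            obtain ⟨t, b1, b2⟩ := M.dp1e hu hEs
            rw [H2 k' le_rfl s hs2 t b1] at b2
            exact hscj u b2
          obtain ⟨u, hu⟩ := M.den hEs
          have := hall u hu
          rw [this] at hu
          exact ⟨hu, hall⟩
        | succ n' ih' =>
          intro k' hn' hk' hk'' s hs1 hs2
          have hEs : ¬ R.en s := by
            intro hEs
            obtain ⟨t, a1, -, a2, -⟩ := M.dg1 hs1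
            rw [H2 k' hk'' s hs2 t a1] at a2
            obtain ⟨v, b1, b2⟩ := M.dr1' (a2.1 hEs) hE
            rw [B.succ k' (by omega)] at b2
            rw [b2] at b1
            have := H1 (k' + 1) (by omega) k (by omega) d b1 hd2 _ hd1
            have := M.inj B le_rfl (by omega) this
            omega
          obtain ⟨s', c1, c2⟩ := M.dg1' hs1 hEs
          obtain ⟨c3, c4⟩ := ih' (k' + 1) (by omega) (by omega) (by omega) s' c2
            (hV hk'' hs2 c1)
          obtain ⟨v, c6, c5⟩ := M.dv' c1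
          rw [c4 v c6] at c5
          exact ⟨c5, ih (j - k') (by omega) k' rfl (by omega) s c5 hs2⟩
      exact (run (j - (k + 1 + 1)) (k + 1 + 1) rfl (by omega) (by omega) z' g3 g5).2 u g2
  intro k hk d hd1 hd2 u hu
  exact key (j - k) k rfl hk d hd1 hd2 u hu

/-- Step E -/
lemma x2_succ {e : ℕ → α} {j : ℕ} (B : Base R e (j + 1)) (H1 : X1 R e (j + 1))
    (H2 : X2 R e j) : X2 R e (j + 1) := by
  intro k hk
  rcases Nat.le_succ_iff.1 hk with h | h
  · exact H2 k h
  subst h
  intro d hd r hr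
  have hne : ∀ i ≤ j, r ≠ e i := by
    rintro i hi rfl
    have := M.inj B le_rfl (by omega) (H2 i hi d hr _ hd)
    omega
  have hz : ¬ R.z r := fun h => hne 0 (Nat.zero_le _) (M.zz h B.z0)
  have hz' : ¬ R.z (e (j + 1)) := by
    intro h
    have := M.inj B le_rfl (Nat.zero_le _) (M.zz h B.z0)
    omega
  obtain ⟨t, h1, h2⟩ := M.db2 hd hz'
  rw [M.pred B (by omega) h1] at h2
  obtain ⟨s, h3, h4, h5⟩ := M.dp2 hr hz
  have hs : R.p2 (e 0) s := (M.zc1 B.z0).1 h4
  have key : ∀ n l, j - l = n → l ≤ j → ∀ s, R.g2 d s → R.p2 (e l) s →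
      ∃ i, l < i ∧ i ≤ j + 1 ∧ R.p1 (e i) s := by
    intro n
    induction n with
    | zero =>
      intro l hn hl s hs1 hs2
      obtain rfl : l = j := by omega
      obtain ⟨t, a1, -, a2⟩ := M.dg2 hs1
      rw [H2 l le_rfl s hs2 t a1] at a2
      have hE := a2.2 h2
      obtain ⟨u, hu⟩ := M.den hE
      obtain ⟨t', b1, b2⟩ := M.dp1e hu hE
      rw [H2 l hl s hs2 t' b1, B.succ l (by omega)] at b2
      exact ⟨l + 1, by omega, by omega, by rwa [b2] at hu⟩
    | succ n ih =>
      intro l hn hl s hs1 hs2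
      by_cases hE : R.en s
      · obtain ⟨u, hu⟩ := M.den hE
        obtain ⟨t', b1, b2⟩ := M.dp1e hu hE
        rw [H2 l hl s hs2 t' b1, B.succ l (by omega)] at b2
        exact ⟨l + 1, by omega, by omega, by rwa [b2] at hu⟩
      · obtain ⟨s', c1, c2⟩ := M.dg2' hs1 hE
        have c3 := M.vstep B H2 (by omega) hl hs2 c1
        obtain ⟨i, c4, c5, c6⟩ := ih (l + 1) (by omega) (by omega) s' c2 c3
        obtain ⟨u, c8, c7⟩ := M.dv' c1
        rw [H1 i c5 (l + 1) c4 s' c6 c3 u c8] at c7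
        exact ⟨i, by omega, c5, c7⟩
  obtain ⟨i, h6, h7, h8⟩ := key j 0 (by omega) (by omega) s h5 hs
  have h9 := H1 i h7 0 h6 s h8 hs r h3
  rcases Nat.le_succ_iff.1 h7 with h | h
  · exact absurd h9 (hne i h)
  · rw [h9, h]

/-- The numbers of a finite model form a chain. -/
theorem exists_chain [Finite α] [Nonempty α] : ∃ (m : ℕ) (e : ℕ → α), Base R e m ∧ X1 R e m ∧
    X2 R e m ∧ R.l (e m) := by
  classical
  -- there is a zero
  obtain ⟨z, hz⟩ : ∃ z, R.z z := by
    have hnum : ∃ x, R.num x := by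
      obtain ⟨x⟩ := (inferInstance : Nonempty α)
      by_cases h1 : R.num x
      · exact ⟨x, h1⟩
      by_cases h2 : R.en x
      · obtain ⟨u, hu⟩ := M.den h2
        exact ⟨u, (M.p1n hu).1⟩
      · obtain ⟨d, hd⟩ := M.dh h1 h2
        obtain ⟨u, hu, -⟩ := M.dhh hd
        exact ⟨u, (M.p1n hu).1⟩
    obtain ⟨x, hx⟩ := hnum
    by_cases h1 : R.l x
    · exact M.dl h1
    · obtain ⟨y, hy⟩ := M.dsc hx h1
      exact M.dlt (M.sclt hy)
  have hnx : ∀ x, ∃ y, R.num x → ¬ R.l x → R.sc x y := by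
    intro x
    by_cases h1 : R.num x
    · by_cases h2 : R.l x
      · exact ⟨x, fun _ h => absurd h2 h⟩
      · obtain ⟨y, hy⟩ := M.dsc h1 h2
        exact ⟨y, fun _ _ => hy⟩
    · exact ⟨x, fun h => absurd h h1⟩
  choose nx hnx using hnx
  let e : ℕ → α := fun i => nx^[i] z
  have he : ∀ i, R.num (e i) → ¬ R.l (e i) → R.sc (e i) (e (i + 1)) := by
    intro i h1 h2
    have : e (i + 1) = nx (e i) := Function.iterate_succ_apply' nx i z
    rw [this]
    exact hnx _ h1 h2
  have step : ∀ j, (Base R e j ∧ X1 R e j ∧ X2 R e j) → ¬ R.l (e j) →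
      (Base R e (j + 1) ∧ X1 R e (j + 1) ∧ X2 R e (j + 1)) := by
    rintro j ⟨B, H1, H2⟩ hl
    have B' := M.base_succ B H1 H2 hl (he j (B.num j le_rfl) hl)
    have H1' := M.x1_succ B' H1 H2
    exact ⟨B', H1', M.x2_succ B' H1' H2⟩
  by_contra hcon
  push Not at hcon
  have hall : ∀ j, Base R e j ∧ X1 R e j ∧ X2 R e j := by
    intro j
    induction j with
    | zero => exact ⟨M.base_zero hz, x1_zero, M.x2_zero hz⟩
    | succ j ih => exact step j ih (hcon j e ih.1 ih.2.1 ih.2.2)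
  have hinj : Function.Injective e := by
    intro i i' h
    exact M.inj (hall (max i i')).1 (le_max_left _ _) (le_max_right _ _) h
  exact not_injective_infinite_finite e hinj

end Model

end Pool.Agent.Helper29.Prefix
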