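import Pool.Agent.Helper29.Prefix.Wang

/-!
# The prefix `∀∀∃`: the sentence

The universe of the intended model `I(m)` consists of the numbers `0, …, m` and of the codes
`(a, b)`, `b < a < m`. The relations are as follows (`x`, `y` numbers; `d = (a, b)`,
`d' = (a', b')` codes).

* `num` numbers, `z` the number `0`, `l` the number `m`, `pl` the number `m - 1`;
* `zc`: `b = 0`; `en`: `b + 1 = a`; `fn`: `b + 2 = a`; `top`: `a = m - 1`;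
* `lt x y`: `x < y`; `sc x y`: `x + 1 = y`;
* `p1 x d`: `x = a`; `p2 x d`: `x = b`; `l2 x d`: `x < b`; `gt x d`: `b < x`;
* `n2 x d`: `x = b + 1 < a`; `n3 x d`: `x = b + 2 < a`; `r1 x d`: `x + 1 = a`;
  `b2 x d`: `x + 1 = b`; `g3 x d`: `a < x`;
* `v d d'`: `a' = a`, `b' = b + 1`; `w d d'`: `a' = a`, `b' = b + 2`; `g1 d d'`: `a' = a`,
  `b + 2 ≤ b'`; `g2 d d'`: `a' = b`; `h d d'`: `a' = a + 1`, `b' = b`.
-/

set_option autoImplicit false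

namespace Pool.Agent.Helper29.Prefix

/-- the relations -/
structure Rel (Γ α : Type) where
  num : α → Prop
  z : α → Prop
  l : α → Prop
  zc : α → Prop
  en : α → Prop
  fn : α → Prop
  pl : α → Prop
  top : α → Prop
  col : Γ × Γ → α → Prop
  lt : α → α → Prop
  sc : α → α → Prop
  p1 : α → α → Prop
  p2 : α → α → Prop
  l2 : α → α → Prop
  gt : α → α → Prop
  n2 : α → α → Prop
  n3 : α → α → Prop
  r1 : α → α → Prop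
  b2 : α → α → Prop
  v : α → α → Prop
  w : α → α → Prop
  g1 : α → α → Prop
  g2 : α → α → Prop
  g3 : α → α → Prop
  h : α → α → Prop

section

variable {Γ α : Type}

/-- the universal part -/
def Uni (R : Rel Γ α) (e : α → α → Prop) (x y : α) : Prop :=
  (R.z x → R.z y → e x y) ∧
  (R.num x → R.num y → ¬ e x y → R.lt x y ∨ R.lt y x) ∧
  (R.lt x y → ¬ R.lt y x) ∧
  (R.z x → R.num y → ¬ e x y → R.lt x y) ∧
  (R.l y → R.num x → ¬ e x y → R.lt x y) ∧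
  (R.lt x y → R.num x ∧ R.num y) ∧
  (R.sc x y → R.lt x y) ∧
  (R.z x → R.num x) ∧
  (R.p1 x y → R.num x ∧ ¬ R.num y ∧ ¬ R.z x ∧ ¬ R.l x ∧ ¬ R.p2 x y ∧ ¬ R.n2 x y) ∧
  (R.p2 x y → R.num x ∧ ¬ R.l2 x y ∧ ¬ R.gt x y) ∧
  (R.z x → (R.zc y ↔ R.p2 x y)) ∧
  (R.zc y → R.p2 x y → R.z x) ∧
  (R.h x y → ¬ R.en y) ∧
  (R.w x y → R.g1 x y) ∧
  (R.sc x y → (R.l y ↔ R.pl x)) ∧
  (R.p1 x y → (R.top y ↔ R.pl x))

/-- the demands -/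
def Dem (R : Rel Γ α) (e : α → α → Prop) (x y z : α) : Prop :=
  (e x y → R.num x → ¬ R.l x → R.sc x z) ∧
  (e x y → R.l x → R.z z) ∧
  (e x y → R.en x → R.p1 z x) ∧
  (e x y → ¬ R.num x → ¬ R.en x → R.h z x) ∧
  (R.lt x y → R.z z) ∧
  (R.lt y x → ¬ R.z y → R.p1 y z ∧ R.zc z ∧ R.g3 x z) ∧
  (R.p1 x y → R.en y → R.p2 z y ∧ R.sc z x) ∧
  (R.p1 x y → ¬ R.en y → R.fn y → R.v y z ∧ R.p1 x z ∧ R.en z) ∧
  (R.p1 x y → ¬ R.en y → ¬ R.fn y → R.w y z ∧ R.p1 x z) ∧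
  (R.p1 y x → R.sc z y ∧ R.r1 z x) ∧
  (R.p2 x y → ¬ R.z x → R.p1 x z ∧ R.zc z ∧ R.g2 y z) ∧
  (R.p2 y x → ¬ R.z y → R.sc z y ∧ R.b2 z x) ∧
  (R.n2 x y → R.p2 z y ∧ R.sc z x) ∧
  (R.n3 x y → R.n2 z y ∧ R.sc z x) ∧
  (R.r1 y x → ¬ R.en x → R.p1 z x ∧ R.sc y z) ∧
  (R.g3 x y → ¬ R.en y → R.v y z ∧ R.g3 x z) ∧
  (R.g3 y x → R.p2 z x ∧ ¬ R.sc z y) ∧
  (R.v x y → R.p2 z y ∧ R.n2 z x) ∧
  (R.v y x → R.p1 z x ∧ R.p1 z y) ∧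
  (R.g1 x y → R.p2 z y ∧ R.gt z x ∧ (R.en y ↔ R.r1 z x) ∧ (R.w x y → R.n3 z x)) ∧
  (R.g1 y x → ¬ R.en x → R.v x z ∧ R.g1 y z) ∧
  (R.g2 x y → R.p2 z y ∧ R.l2 z x ∧ (R.en y ↔ R.b2 z x)) ∧
  (R.g2 y x → ¬ R.en x → R.v x z ∧ R.g2 y z) ∧
  (R.h x y → R.p1 z x ∧ R.r1 z y) ∧
  (R.h y x → R.p2 z y ∧ R.p2 z x) ∧
  (¬ R.num x → ¬ R.num y → ¬ e x y →
    ¬ (R.v x y ∨ R.v y x ∨ R.g1 x y ∨ R.g1 y x ∨ R.g2 x y ∨ R.g2 y x ∨ R.h x y ∨ R.h y x) →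
    (R.p1 z x ∧ ¬ R.p1 z y) ∨ (R.p2 z x ∧ ¬ R.p2 z y))

/-- the colours -/
def Col (W : Wang Γ) (R : Rel Γ α) (x y : α) : Prop :=
  (¬ R.num x → ∃ c, R.col c x ∧ ∀ c', R.col c' x → c' = c) ∧
  (R.v x y → ∀ c c', R.col c x → R.col c' y → W.U c.1 c'.1 ∧ W.R c.2 c'.2) ∧
  (R.h x y → ∀ c c', R.col c x → R.col c' y → W.R c.1 c'.1 ∧ W.U c.2 c'.2) ∧
  (R.zc x → ∀ c, R.col c x → W.b c.1 ∧ W.l c.2) ∧
  (R.top x → ∀ c, R.col c x → W.r c.1 ∧ W.t c.2) ∧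
  (R.en x → ∀ c, R.col c x → c.1 = c.2 ∧ (R.zc x → W.c c.1))

/-- the matrix of the sentence `∀ x ∀ y ∃ z` -/
def Mtx (W : Wang Γ) (R : Rel Γ α) (e : α → α → Prop) (x y z : α) : Prop :=
  Uni R e x y ∧ Col W R x y ∧ Dem R e x y z

/-- the models, in a more convenient form -/
structure Model (R : Rel Γ α) : Prop where
  zz : ∀ {x y}, R.z x → R.z y → x = y
  tour : ∀ {x y}, R.num x → R.num y → x ≠ y → R.lt x y ∨ R.lt y x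
  asym : ∀ {x y}, R.lt x y → ¬ R.lt y x
  zlt : ∀ {x y}, R.z x → R.num y → x ≠ y → R.lt x y
  llt : ∀ {x y}, R.l y → R.num x → x ≠ y → R.lt x y
  ltn : ∀ {x y}, R.lt x y → R.num x ∧ R.num y
  sclt : ∀ {x y}, R.sc x y → R.lt x y
  zn : ∀ {x}, R.z x → R.num x
  p1n : ∀ {x y}, R.p1 x y → R.num x ∧ ¬ R.num y ∧ ¬ R.z x ∧ ¬ R.l x ∧ ¬ R.p2 x y ∧ ¬ R.n2 x y
  p2n : ∀ {x y}, R.p2 x y → R.num x ∧ ¬ R.l2 x y ∧ ¬ R.gt x y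
  zc1 : ∀ {x y}, R.z x → (R.zc y ↔ R.p2 x y)
  zc2 : ∀ {x y}, R.zc y → R.p2 x y → R.z x
  hne : ∀ {x y}, R.h x y → ¬ R.en y
  wg : ∀ {x y}, R.w x y → R.g1 x y
  scl : ∀ {x y}, R.sc x y → (R.l y ↔ R.pl x)
  ptop : ∀ {x y}, R.p1 x y → (R.top y ↔ R.pl x)
  dsc : ∀ {x}, R.num x → ¬ R.l x → ∃ z, R.sc x z
  dl : ∀ {x}, R.l x → ∃ z, R.z z
  den : ∀ {x}, R.en x → ∃ z, R.p1 z x
  dh : ∀ {x}, ¬ R.num x → ¬ R.en x → ∃ z, R.h z x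
  dlt : ∀ {x y}, R.lt x y → ∃ z, R.z z
  dtl : ∀ {x y}, R.lt y x → ¬ R.z y → ∃ z, R.p1 y z ∧ R.zc z ∧ R.g3 x z
  dp1e : ∀ {x y}, R.p1 x y → R.en y → ∃ z, R.p2 z y ∧ R.sc z x
  dp1f : ∀ {x y}, R.p1 x y → ¬ R.en y → R.fn y → ∃ z, R.v y z ∧ R.p1 x z ∧ R.en z
  dp1w : ∀ {x y}, R.p1 x y → ¬ R.en y → ¬ R.fn y → ∃ z, R.w y z ∧ R.p1 x z
  dr1 : ∀ {x y}, R.p1 y x → ∃ z, R.sc z y ∧ R.r1 z x
  dp2 : ∀ {x y}, R.p2 x y → ¬ R.z x → ∃ z, R.p1 x z ∧ R.zc z ∧ R.g2 y z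
  db2 : ∀ {x y}, R.p2 y x → ¬ R.z y → ∃ z, R.sc z y ∧ R.b2 z x
  dn2 : ∀ {x y}, R.n2 x y → ∃ z, R.p2 z y ∧ R.sc z x
  dn3 : ∀ {x y}, R.n3 x y → ∃ z, R.n2 z y ∧ R.sc z x
  dr1' : ∀ {x y}, R.r1 y x → ¬ R.en x → ∃ z, R.p1 z x ∧ R.sc y z
  dg3 : ∀ {x y}, R.g3 x y → ¬ R.en y → ∃ z, R.v y z ∧ R.g3 x z
  dg3' : ∀ {x y}, R.g3 y x → ∃ z, R.p2 z x ∧ ¬ R.sc z y
  dv : ∀ {x y}, R.v x y → ∃ z, R.p2 z y ∧ R.n2 z x
  dv' : ∀ {x y}, R.v y x → ∃ z, R.p1 z x ∧ R.p1 z y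
  dg1 : ∀ {x y}, R.g1 x y → ∃ z, R.p2 z y ∧ R.gt z x ∧ (R.en y ↔ R.r1 z x) ∧
    (R.w x y → R.n3 z x)
  dg1' : ∀ {x y}, R.g1 y x → ¬ R.en x → ∃ z, R.v x z ∧ R.g1 y z
  dg2 : ∀ {x y}, R.g2 x y → ∃ z, R.p2 z y ∧ R.l2 z x ∧ (R.en y ↔ R.b2 z x)
  dg2' : ∀ {x y}, R.g2 y x → ¬ R.en x → ∃ z, R.v x z ∧ R.g2 y z
  dhh : ∀ {x y}, R.h x y → ∃ z, R.p1 z x ∧ R.r1 z y
  dhh' : ∀ {x y}, R.h y x → ∃ z, R.p2 z y ∧ R.p2 z x
  dsep : ∀ {x y}, ¬ R.num x → ¬ R.num y → x ≠ y →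
    ¬ (R.v x y ∨ R.v y x ∨ R.g1 x y ∨ R.g1 y x ∨ R.g2 x y ∨ R.g2 y x ∨ R.h x y ∨ R.h y x) →
    ∃ z, (R.p1 z x ∧ ¬ R.p1 z y) ∨ (R.p2 z x ∧ ¬ R.p2 z y)

lemma model_of {W : Wang Γ} {R : Rel Γ α} (H : ∀ x y, ∃ z, Mtx W R (· = ·) x y z) :
    Model R := by
  refine
    { zz := ?_, tour := ?_, asym := ?_, zlt := ?_, llt := ?_, ltn := ?_, sclt := ?_, zn := ?_,
      p1n := ?_, p2n := ?_, zc1 := ?_, zc2 := ?_, hne := ?_, wg := ?_, scl := ?_, ptop := ?_,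
      dsc := ?_, dl := ?_, den := ?_, dh := ?_, dlt := ?_, dtl := ?_, dp1e := ?_, dp1f := ?_,
      dp1w := ?_, dr1 := ?_, dp2 := ?_, db2 := ?_, dn2 := ?_, dn3 := ?_, dr1' := ?_, dg3 := ?_,
      dg3' := ?_, dv := ?_, dv' := ?_, dg1 := ?_, dg1' := ?_, dg2 := ?_, dg2' := ?_, dhh := ?_,
      dhh' := ?_, dsep := ?_ }
  · intro x y h1 h2
    obtain ⟨z, ⟨u1, u2, u3, u4, u5, u6, u7, u8, u9, u10, u11, u12, u13, u14, u15, u16⟩, -, -⟩ := H x y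
    exact u1 h1 h2
  · intro x y h1 h2 h3
    obtain ⟨z, ⟨u1, u2, u3, u4, u5, u6, u7, u8, u9, u10, u11, u12, u13, u14, u15, u16⟩, -, -⟩ := H x y
    exact u2 h1 h2 h3
  · intro x y
    obtain ⟨z, ⟨u1, u2, u3, u4, u5, u6, u7, u8, u9, u10, u11, u12, u13, u14, u15, u16⟩, -, -⟩ := H x y
    exact u3
  · intro x y
    obtain ⟨z, ⟨u1, u2, u3, u4, u5, u6, u7, u8, u9, u10, u11, u12, u13, u14, u15, u16⟩, -, -⟩ := H x y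
    exact u4
  · intro x y
    obtain ⟨z, ⟨u1, u2, u3, u4, u5, u6, u7, u8, u9, u10, u11, u12, u13, u14, u15, u16⟩, -, -⟩ := H x y
    exact u5
  · intro x y
    obtain ⟨z, ⟨u1, u2, u3, u4, u5, u6, u7, u8, u9, u10, u11, u12, u13, u14, u15, u16⟩, -, -⟩ := H x y
    exact u6
  · intro x y
    obtain ⟨z, ⟨u1, u2, u3, u4, u5, u6, u7, u8, u9, u10, u11, u12, u13, u14, u15, u16⟩, -, -⟩ := H x y
    exact u7
  · intro x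
    obtain ⟨z, ⟨u1, u2, u3, u4, u5, u6, u7, u8, u9, u10, u11, u12, u13, u14, u15, u16⟩, -, -⟩ := H x x
    exact u8
  · intro x y
    obtain ⟨z, ⟨u1, u2, u3, u4, u5, u6, u7, u8, u9, u10, u11, u12, u13, u14, u15, u16⟩, -, -⟩ := H x y
    exact u9
  · intro x y
    obtain ⟨z, ⟨u1, u2, u3, u4, u5, u6, u7, u8, u9, u10, u11, u12, u13, u14, u15, u16⟩, -, -⟩ := H x y
    exact u10
  · intro x y
    obtain ⟨z, ⟨u1, u2, u3, u4, u5, u6, u7, u8, u9, u10, u11, u12, u13, u14, u15, u16⟩, -, -⟩ := H x y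
    exact u11
  · intro x y
    obtain ⟨z, ⟨u1, u2, u3, u4, u5, u6, u7, u8, u9, u10, u11, u12, u13, u14, u15, u16⟩, -, -⟩ := H x y
    exact u12
  · intro x y
    obtain ⟨z, ⟨u1, u2, u3, u4, u5, u6, u7, u8, u9, u10, u11, u12, u13, u14, u15, u16⟩, -, -⟩ := H x y
    exact u13
  · intro x y
    obtain ⟨z, ⟨u1, u2, u3, u4, u5, u6, u7, u8, u9, u10, u11, u12, u13, u14, u15, u16⟩, -, -⟩ := H x y
    exact u14
  · intro x y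
    obtain ⟨z, ⟨u1, u2, u3, u4, u5, u6, u7, u8, u9, u10, u11, u12, u13, u14, u15, u16⟩, -, -⟩ := H x y
    exact u15
  · intro x y
    obtain ⟨z, ⟨u1, u2, u3, u4, u5, u6, u7, u8, u9, u10, u11, u12, u13, u14, u15, u16⟩, -, -⟩ := H x y
    exact u16
  · intro x h1 h2
    obtain ⟨z, -, -, d1, d2, d3, d4, -⟩ := H x x
    exact ⟨z, d1 rfl h1 h2⟩
  · intro x h1
    obtain ⟨z, -, -, d1, d2, d3, d4, -⟩ := H x x
    exact ⟨z, d2 rfl h1⟩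
  · intro x h1
    obtain ⟨z, -, -, d1, d2, d3, d4, -⟩ := H x x
    exact ⟨z, d3 rfl h1⟩
  · intro x h1 h2
    obtain ⟨z, -, -, d1, d2, d3, d4, -⟩ := H x x
    exact ⟨z, d4 rfl h1 h2⟩
  · intro x y h1
    obtain ⟨z, -, -, -, -, -, -, d5, -⟩ := H x y
    exact ⟨z, d5 h1⟩
  · intro x y h1 h2
    obtain ⟨z, -, -, -, -, -, -, -, d6, -⟩ := H x y
    exact ⟨z, d6 h1 h2⟩
  · intro x y h1 h2
    obtain ⟨z, -, -, -, -, -, -, -, -, d7, d8, d9, -⟩ := H x y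
    exact ⟨z, d7 h1 h2⟩
  · intro x y h1 h2 h3
    obtain ⟨z, -, -, -, -, -, -, -, -, d7, d8, d9, -⟩ := H x y
    exact ⟨z, d8 h1 h2 h3⟩
  · intro x y h1 h2 h3
    obtain ⟨z, -, -, -, -, -, -, -, -, d7, d8, d9, -⟩ := H x y
    exact ⟨z, d9 h1 h2 h3⟩
  · intro x y h1
    obtain ⟨z, -, -, -, -, -, -, -, -, -, -, -, d10, -⟩ := H x y
    exact ⟨z, d10 h1⟩
  · intro x y h1 h2
    obtain ⟨z, -, -, -, -, -, -, -, -, -, -, -, -, d11, d12, d13, d14, d15, d16, d17, d18, d19,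
      d20, d21, d22, d23, d24, d25, d26⟩ := H x y
    exact ⟨z, d11 h1 h2⟩
  · intro x y h1 h2
    obtain ⟨z, -, -, -, -, -, -, -, -, -, -, -, -, d11, d12, d13, d14, d15, d16, d17, d18, d19,
      d20, d21, d22, d23, d24, d25, d26⟩ := H x y
    exact ⟨z, d12 h1 h2⟩
  · intro x y h1
    obtain ⟨z, -, -, -, -, -, -, -, -, -, -, -, -, d11, d12, d13, d14, d15, d16, d17, d18, d19,
      d20, d21, d22, d23, d24, d25, d26⟩ := H x y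
    exact ⟨z, d13 h1⟩
  · intro x y h1
    obtain ⟨z, -, -, -, -, -, -, -, -, -, -, -, -, d11, d12, d13, d14, d15, d16, d17, d18, d19,
      d20, d21, d22, d23, d24, d25, d26⟩ := H x y
    exact ⟨z, d14 h1⟩
  · intro x y h1 h2
    obtain ⟨z, -, -, -, -, -, -, -, -, -, -, -, -, d11, d12, d13, d14, d15, d16, d17, d18, d19,
      d20, d21, d22, d23, d24, d25, d26⟩ := H x y
    exact ⟨z, d15 h1 h2⟩
  · intro x y h1 h2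
    obtain ⟨z, -, -, -, -, -, -, -, -, -, -, -, -, d11, d12, d13, d14, d15, d16, d17, d18, d19,
      d20, d21, d22, d23, d24, d25, d26⟩ := H x y
    exact ⟨z, d16 h1 h2⟩
  · intro x y h1
    obtain ⟨z, -, -, -, -, -, -, -, -, -, -, -, -, d11, d12, d13, d14, d15, d16, d17, d18, d19,
      d20, d21, d22, d23, d24, d25, d26⟩ := H x y
    exact ⟨z, d17 h1⟩
  · intro x y h1
    obtain ⟨z, -, -, -, -, -, -, -, -, -, -, -, -, d11, d12, d13, d14, d15, d16, d17, d18, d19,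
      d20, d21, d22, d23, d24, d25, d26⟩ := H x y
    exact ⟨z, d18 h1⟩
  · intro x y h1
    obtain ⟨z, -, -, -, -, -, -, -, -, -, -, -, -, d11, d12, d13, d14, d15, d16, d17, d18, d19,
      d20, d21, d22, d23, d24, d25, d26⟩ := H x y
    exact ⟨z, d19 h1⟩
  · intro x y h1
    obtain ⟨z, -, -, -, -, -, -, -, -, -, -, -, -, d11, d12, d13, d14, d15, d16, d17, d18, d19,
      d20, d21, d22, d23, d24, d25, d26⟩ := H x y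
    exact ⟨z, d20 h1⟩
  · intro x y h1 h2
    obtain ⟨z, -, -, -, -, -, -, -, -, -, -, -, -, d11, d12, d13, d14, d15, d16, d17, d18, d19,
      d20, d21, d22, d23, d24, d25, d26⟩ := H x y
    exact ⟨z, d21 h1 h2⟩
  · intro x y h1
    obtain ⟨z, -, -, -, -, -, -, -, -, -, -, -, -, d11, d12, d13, d14, d15, d16, d17, d18, d19,
      d20, d21, d22, d23, d24, d25, d26⟩ := H x y
    exact ⟨z, d22 h1⟩
  · intro x y h1 h2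
    obtain ⟨z, -, -, -, -, -, -, -, -, -, -, -, -, d11, d12, d13, d14, d15, d16, d17, d18, d19,
      d20, d21, d22, d23, d24, d25, d26⟩ := H x y
    exact ⟨z, d23 h1 h2⟩
  · intro x y h1
    obtain ⟨z, -, -, -, -, -, -, -, -, -, -, -, -, d11, d12, d13, d14, d15, d16, d17, d18, d19,
      d20, d21, d22, d23, d24, d25, d26⟩ := H x y
    exact ⟨z, d24 h1⟩
  · intro x y h1
    obtain ⟨z, -, -, -, -, -, -, -, -, -, -, -, -, d11, d12, d13, d14, d15, d16, d17, d18, d19,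
      d20, d21, d22, d23, d24, d25, d26⟩ := H x y
    exact ⟨z, d25 h1⟩
  · intro x y h1 h2 h3 h4
    obtain ⟨z, -, -, -, -, -, -, -, -, -, -, -, -, d11, d12, d13, d14, d15, d16, d17, d18, d19,
      d20, d21, d22, d23, d24, d25, d26⟩ := H x y
    exact ⟨z, d26 h1 h2 h3 h4⟩

end

end Pool.Agent.Helper29.Prefix
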